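import Mathlib
import Pool.Agent.Lib.CFT.B06
import Pool.Agent.Lib.CFT.B07
import Pool.Agent.Lib.CFT.B09
import Pool.Agent.Lib.CFT.B16
import Pool.Agent.Lib.CFT.B17

/-! # H16D, chunk A2: (M, 4 small) totally ramified primes in an extension of prime degree -/

open NumberField IsDedekindDomain Pointwise

namespace H16D

open CFT

variable {K : Type} [Field K] [NumberField K] {L : Type} [Field L] [NumberField L] [Algebra K L]

/-- PROOF. hv gives w above v with ramification index e ≠ 1 (definition of Unr). e is the order of the inertia group (b16_card, B16), a subgroup of Gal(L/K), which has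
p elements (IsGalois.card_aut_eq_finrank), so e divides p and e = p. b09_sum (B09): the sum of e(w') f(w') over the primes w' above v (abv L v, mem_abv) is p; the term of w is
p f(w) with f(w) >= 1 (f_pos), the others are >= 1 (e_pos, f_pos): so f(w) = 1 and there are no others. -/
theorem ra1 [IsGalois K L] {p : ℕ} (hp : p.Prime) (hd : Module.finrank K L = p) {v : Pr K} (hv : ¬ Unr K L v) :
    ∃ w : Pr L, below K w = v ∧ (∀ w' : Pr L, below K w' = v → w' = w) ∧ w.asIdeal.ramificationIdx (𝓞 K) = p ∧ w.asIdeal.inertiaDeg (𝓞 K) = 1 := by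
  classical
  have hv' : ∃ w : Pr L, below K w = v ∧ w.asIdeal.ramificationIdx (𝓞 K) ≠ 1 := by
    by_contra hcon
    exact hv fun w hw => by
      by_contra he
      exact hcon ⟨w, hw, he⟩
  obtain ⟨w, hw, he⟩ := hv'
  have hcard : Nat.card (L ≃ₐ[K] L) = p := by rw [IsGalois.card_aut_eq_finrank, hd]
  have hdvd : w.asIdeal.ramificationIdx (𝓞 K) ∣ p := by
    rw [← b16_card (K := K) w, ← hcard]
    exact Subgroup.card_subgroup_dvd_card _
  have hep : w.asIdeal.ramificationIdx (𝓞 K) = p := ((Nat.dvd_prime hp).1 hdvd).resolve_left he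
  have hsum := b09_sum (L := L) v
  rw [hd] at hsum
  have hwv : w ∈ abv L v := (mem_abv v w).2 hw
  have hf1 := f_pos (K := K) w
  have hsplit := Finset.add_sum_erase (abv L v)
    (fun w' : Pr L => w'.asIdeal.ramificationIdx (𝓞 K) * w'.asIdeal.inertiaDeg (𝓞 K)) hwv
  rw [hsum, hep] at hsplit
  have hp0 := hp.pos
  have hle : p * 1 ≤ p * w.asIdeal.inertiaDeg (𝓞 K) := Nat.mul_le_mul_left p hf1
  have hrest : ∑ w' ∈ (abv L v).erase w, w'.asIdeal.ramificationIdx (𝓞 K) * w'.asIdeal.inertiaDeg (𝓞 K) = 0 := by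
    omega
  refine ⟨w, hw, fun w' hw' => ?_, hep, ?_⟩
  · by_contra hne
    have h1 := (Finset.sum_eq_zero_iff.1 hrest) w' (Finset.mem_erase.2 ⟨hne, (mem_abv v w').2 hw'⟩)
    have h2 := Nat.mul_pos (e_pos (K := K) w') (f_pos (K := K) w')
    omega
  · have h3 : p * w.asIdeal.inertiaDeg (𝓞 K) = p * 1 := by omega
    exact Nat.eq_of_mul_eq_mul_left hp0 h3

/-- PROOF. Let w' be the image of w under s (the ideal of the s x, x in w; below K w' = below K w; b17_trans in B17 and the lemmas there show how to write it), so w' = w by h: x in w iff s x in w,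
for x in O_L, and the same for powers: x in w^n iff s x in w^n (Ideal.map of the ring automorphism commutes with powers). For y in O_L, y ≠ 0, od w y >= n iff y in w^n (od_le_iff, B01), so od w (s y) = od w y.
General x = a / b (IsFractionRing.div_surjective), od_mul, od_inv; x = 0 is clear; val_eq. -/
theorem ra2 (w : Pr L) (h : ∀ w' : Pr L, below K w' = below K w → w' = w) (s : L ≃ₐ[K] L) (x : L) :
    w.valuation L (s x) = w.valuation L x := by
  have hI : ∀ y : 𝓞 L, y ∈ w.asIdeal ↔ s⁻¹ • y ∈ w.asIdeal := by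
    have hpr : (Ideal.comap (MulSemiringAction.toRingHom (L ≃ₐ[K] L) (𝓞 L) s⁻¹) w.asIdeal).IsPrime := by
      have := w.isPrime
      infer_instance
    have hne : Ideal.comap (MulSemiringAction.toRingHom (L ≃ₐ[K] L) (𝓞 L) s⁻¹) w.asIdeal ≠ ⊥ := by
      obtain ⟨y, hy, hy0⟩ := Submodule.exists_mem_ne_zero_of_ne_bot w.ne_bot
      intro hbot
      have h1 : s • y ∈ Ideal.comap (MulSemiringAction.toRingHom (L ≃ₐ[K] L) (𝓞 L) s⁻¹) w.asIdeal := by
        rw [Ideal.mem_comap]
        show s⁻¹ • s • y ∈ w.asIdeal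
        rwa [inv_smul_smul]
      rw [hbot, Ideal.mem_bot] at h1
      apply hy0
      have h2 : s⁻¹ • s • y = s⁻¹ • (0 : 𝓞 L) := by rw [h1]
      rwa [inv_smul_smul, smul_zero] at h2
    have h3 := h ⟨_, hpr, hne⟩ (by
      refine HeightOneSpectrum.ext ?_
      ext a
      show s⁻¹ • (algebraMap (𝓞 K) (𝓞 L) a) ∈ w.asIdeal ↔ algebraMap (𝓞 K) (𝓞 L) a ∈ w.asIdeal
      have e : s⁻¹ • (algebraMap (𝓞 K) (𝓞 L) a) = algebraMap (𝓞 K) (𝓞 L) a := by
        apply RingOfIntegers.ext
        show s⁻¹ (algebraMap K L (a : K)) = algebraMap K L (a : K)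
        exact AlgEquiv.commutes _ _
      rw [e])
    intro y
    have h4 : w.asIdeal = Ideal.comap (MulSemiringAction.toRingHom (L ≃ₐ[K] L) (𝓞 L) s⁻¹) w.asIdeal :=
      (congrArg HeightOneSpectrum.asIdeal h3).symm
    conv_lhs => rw [h4]
    rfl
  have hs : s • w.asIdeal = w.asIdeal := by
    ext y
    rw [Ideal.pointwise_smul_eq_comap, Ideal.mem_comap]
    exact (hI y).symm
  have hpow : ∀ (n : ℕ) (y : 𝓞 L), s • y ∈ w.asIdeal ^ n ↔ y ∈ w.asIdeal ^ n := by
    intro n y
    have h5 : s • w.asIdeal ^ n = w.asIdeal ^ n := by rw [smul_pow', hs]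
    conv_lhs => rw [← h5]
    exact Ideal.smul_mem_pointwise_smul_iff
  have hint : ∀ y : 𝓞 L, w.valuation L (s (y : L)) = w.valuation L (y : L) := by
    intro y
    by_cases hy : y = 0
    · subst hy
      have e : ((0 : 𝓞 L) : L) = 0 := map_zero _
      rw [e, map_zero, map_zero]
    have hy' : (y : L) ≠ 0 := fun h => hy (RingOfIntegers.coe_eq_zero_iff.1 h)
    have hsy : s • y ≠ 0 := by
      intro h0
      apply hy
      have h2 : s⁻¹ • s • y = s⁻¹ • (0 : 𝓞 L) := by rw [h0]
      rwa [inv_smul_smul, smul_zero] at h2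
    have hsy' : s (y : L) ≠ 0 := fun h0 => hy' ((map_eq_zero s).1 h0)
    have e : s (y : L) = ((s • y : 𝓞 L) : L) := rfl
    have h6 : ∀ n : ℕ, (n : ℤ) ≤ od w (s (y : L)) ↔ (n : ℤ) ≤ od w (y : L) := by
      intro n
      rw [e, od_le_iff w hsy n, od_le_iff w hy n, hpow]
    have h7 : 0 ≤ od w (y : L) := od_nonneg w y
    have h8 : 0 ≤ od w (s (y : L)) := by
      rw [e]
      exact od_nonneg w _
    have h9 : od w (s (y : L)) = od w (y : L) := by
      refine le_antisymm ?_ ?_
      · have := (h6 (od w (s (y : L))).toNat).1 (by rw [Int.toNat_of_nonneg h8])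
        rwa [Int.toNat_of_nonneg h8] at this
      · have := (h6 (od w (y : L)).toNat).2 (by rw [Int.toNat_of_nonneg h7])
        rwa [Int.toNat_of_nonneg h7] at this
    rw [val_eq w hsy', val_eq w hy', h9]
  obtain ⟨a, b, hb, rfl⟩ := IsFractionRing.div_surjective (A := 𝓞 L) x
  rw [map_div₀, map_div₀, map_div₀]
  have ha1 := hint a
  have hb1 := hint b
  exact congrArg₂ (· / ·) ha1 hb1

/-- PROOF. z = 0: clear. Otherwise od v (N z) = (dv (N z)) v = (Nd K L (dv z)) v (Nd_dv, B07) = sum over abv L v of f(w') od w' z (Nd_apply, B09) = f(w) od w z = od w z, since w is the only prime above v = below K w;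
val_eq for both (Algebra.norm_ne_zero_iff). -/
theorem ra3 (w : Pr L) (h : ∀ w' : Pr L, below K w' = below K w → w' = w) (hf : w.asIdeal.inertiaDeg (𝓞 K) = 1) (z : L) :
    (below K w).valuation K (Algebra.norm K z) = w.valuation L z := by
  classical
  by_cases hz : z = 0
  · subst hz
    rw [Algebra.norm_zero, map_zero, map_zero]
  have hN : Algebra.norm K z ≠ 0 := Algebra.norm_ne_zero_iff.2 hz
  have h1 : od (below K w) (Algebra.norm K z) = od w z := by
    rw [← dv_apply, ← Nd_dv hz, Nd_apply]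
    have h2 : abv L (below K w) = {w} := by
      ext w'
      rw [mem_abv, Finset.mem_singleton]
      constructor
      · exact h w'
      · rintro rfl
        rfl
    rw [h2, Finset.sum_singleton, hf, dv_apply]
    push_cast
    ring
  rw [val_eq _ hN, val_eq _ hz, h1]

/-- PROOF. x = 0: clear. od_alg (B06) and val_eq: exp(-p n) = exp(-n)^p. -/
theorem ra4 (w : Pr L) {p : ℕ} (hw : w.asIdeal.ramificationIdx (𝓞 K) = p) (x : K) :
    w.valuation L (algebraMap K L x) = (below K w).valuation K x ^ p := by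
  have hp : p ≠ 0 := by
    rw [← hw]
    exact (e_pos (K := K) w).ne'
  by_cases hx : x = 0
  · subst hx
    rw [map_zero, map_zero, map_zero, zero_pow hp]
  have hx' : algebraMap K L x ≠ 0 := fun h0 => hx ((map_eq_zero (algebraMap K L)).1 h0)
  rw [val_eq _ hx', val_eq _ hx, od_alg, hw, ← WithZero.exp_nsmul]
  congr 1
  rw [nsmul_eq_mul]
  ring

end H16D
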