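import Mathlib
import Pool.Agent.Lib.CFT.B14
import Pool.Agent.Lib.CFT.B15
import Pool.Agent.Lib.CFT.D2

/-! # H16D, chunk A1: (S) approximation -/

open NumberField IsDedekindDomain

namespace H16D

open CFT

variable {E : Type} [Field E] [NumberField E]

theorem a1_get (u : Pr E) (T : Finset (Pr E)) (hu : u ∉ T) (N : ℕ) (a : E) : ∃ α : E, Ray T N α ∧
    u.valuation E (α - a) < WithZero.exp (-(N : ℤ)) := by
  classical
  obtain ⟨α, hα0, hc, hs⟩ := approx (insert u T) N (fun v => if v = u then a else 1) (fun _ => 1)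
    (fun _ => one_ne_zero)
  refine ⟨α, ⟨hα0, fun v hv => ?_, fun φ => ?_⟩, ?_⟩
  · have h1 := hc v (Finset.mem_insert_of_mem hv)
    have h2 : v ≠ u := fun h => hu (h ▸ hv)
    simp only [if_neg h2] at h1
    exact h1
  · have h1 := hs φ
    rwa [mul_one] at h1
  · have h1 := hc u (Finset.mem_insert_self _ _)
    simp only [if_true] at h1
    exact h1

/-- PROOF. b15_ex u 1 (B15) gives a ≠ 0 with od u a = 1. approx (B14) with the finite set insert u T, the number max N 1, the function u ↦ a, other primes ↦ 1, and the signs 1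
gives α. At v in T (v ≠ u): the valuation of α - 1 is < exp(-max N 1) <= exp(-N). At u: the valuation of α - a is < exp(-1) = valuation of a (val_eq), so α has the valuation of a
(Valuation.map_sub_eq_of_lt_right or similar, α = a + (α - a)), od u α = 1 (definition of od). -/
theorem ap1 (u : Pr E) (T : Finset (Pr E)) (hu : u ∉ T) (N : ℕ) : ∃ α : E, Ray T N α ∧ od u α = 1 := by
  obtain ⟨a, ha0, hau⟩ := b15_ex u 1
  obtain ⟨α, hα, h1⟩ := a1_get u T hu (max N 1) a
  refine ⟨α, ⟨hα.ne, fun v hv => (hα.cong v hv).trans_le ?_, hα.pos⟩, ?_⟩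
  · rw [WithZero.exp_le_exp]
    have : N ≤ max N 1 := le_max_left _ _
    omega
  · have h2 : u.valuation E a = WithZero.exp (-1 : ℤ) := by rw [val_eq u ha0, hau]
    have h3 : u.valuation E (α - a) < u.valuation E a := by
      rw [h2]
      refine h1.trans_le ?_
      rw [WithZero.exp_le_exp]
      have : 1 ≤ max N 1 := le_max_right _ _
      omega
    have h4 : u.valuation E α = u.valuation E a := by
      have h5 := Valuation.map_add_eq_of_lt_right (u.valuation E) h3
      rw [sub_add_cancel] at h5
      exact h5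
    unfold od
    rw [h4, h2, WithZero.log_exp, neg_neg]

/-- PROOF. The same with b in place of a: approx with insert u T, max N M, u ↦ b, other primes ↦ 1, signs 1 gives α with valuation of α - b at u < exp(-max N M) <= exp(-M);
α / b - 1 = (α - b) / b and b has valuation 1 at u (val_eq, hb). -/
theorem ap2 (u : Pr E) (T : Finset (Pr E)) (hu : u ∉ T) (N M : ℕ) {b : E} (hb0 : b ≠ 0) (hb : od u b = 0) :
    ∃ α : E, Ray T N α ∧ u.valuation E (α / b - 1) < WithZero.exp (-(M : ℤ)) := by
  obtain ⟨α, hα, h1⟩ := a1_get u T hu (max N M) b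
  refine ⟨α, ⟨hα.ne, fun v hv => (hα.cong v hv).trans_le ?_, hα.pos⟩, ?_⟩
  · rw [WithZero.exp_le_exp]
    have : N ≤ max N M := le_max_left _ _
    omega
  · have h2 : u.valuation E b = 1 := by rw [val_eq u hb0, hb, neg_zero, WithZero.exp_zero]
    have h3 : α / b - 1 = (α - b) / b := by
      field_simp
    rw [h3, map_div₀, h2, div_one]
    refine h1.trans_le ?_
    rw [WithZero.exp_le_exp]
    have : M ≤ max N M := le_max_right _ _
    omega

end H16D
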