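import Mathlib
import Pool.Agent.Lib.CFT.B08
import Pool.Agent.Lib.CFT.B16
import Pool.Agent.Lib.CFT.B17
import Pool.Agent.Lib.CFT.B22
import Pool.Agent.Lib.CFT.X00
import Pool.Agent.Lib.CFT.X12
import Pool.Agent.Lib.CFT.X13
import Pool.Agent.Lib.H16D.A2

/-! # H16D, chunk A3: (M) a Frobenius element at W nontrivial on L -/

open NumberField IsDedekindDomain

namespace H16D

open CFT

variable {K : Type} [Field K] [NumberField K] {L : Type} [Field L] [NumberField L] [Algebra K L]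
  {M : Type} [Field M] [NumberField M] [Algebra K M] [Algebra L M] [IsScalarTower K L M]

/-- PROOF. v = below K W, w = below L W (below K w = v: below_below, B08). q is not in v, so not in w and not in W (m_mem_below, X00, or: the ideal of v is the inverse image of that of W), so M/L is unramified at w
(unr_cyc, B22) and e(W|K) = e(w|K) e(W|L) = p * 1 (e_tower, B08; ra1, H16D.A2: w is the only prime above v and e(w|K) = p). The inertia group of W in Gal(M/K)
(W.asIdeal.inertia, b16_card, B16) has p >= 2 elements, so there is h₁ ≠ 1 in it: h₁ x - x in W for all x in O_M. h₁ ζ = ζ: ζ is an algebraic integer z with z^q = 1, h₁ z is another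
q-th root of unity, h₁ z - z is in W, so they are equal (b22_distinct, B22, q not in W). So h₁ is nontrivial on L (x_inj, X12, with autToPow h₁ = 1; or: an automorphism fixing L and ζ is 1 as M = L(ζ)).
fr_one (B17): h₂ with h₂ x - x^(Nm v) in W for all x in O_M. Let h = h₂ if h₂ is nontrivial on L, and h = h₂ h₁ otherwise: (h₂ h₁) x - x^(Nm v) = (h₂ (h₁ x) - (h₁ x)^(Nm v)) + ((h₁ x)^(Nm v) - x^(Nm v)), both in W
(sub_dvd_pow_sub_pow). Finally h z - z^(Nm v) is in W and both are q-th roots of unity, so h ζ = ζ^(Nm v) (b22_distinct). -/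
theorem fe1 [IsGalois K L] [IsGalois K M] {p : ℕ} (hp : p.Prime) (hd : Module.finrank K L = p) {q : ℕ} [NeZero q] [IsCyclotomicExtension {q} L M]
    {ζ : M} (hζ : IsPrimitiveRoot ζ q) (W : Pr M) (hr : ¬ Unr K L (below K W)) (hq : (q : 𝓞 K) ∉ (below K W).asIdeal) :
    ∃ h : M ≃ₐ[K] M, (∀ x : 𝓞 M, h • x - x ^ Nm (below K W) ∈ W.asIdeal) ∧ AlgEquiv.restrictNormalHom L h ≠ 1 ∧ h ζ = ζ ^ Nm (below K W) := by
  obtain ⟨w₀, -, hun, he, -⟩ := ra1 hp hd hr
  have hw : below L W = w₀ := hun _ (below_below K L M W)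
  have hqM : (q : 𝓞 M) ∉ W.asIdeal := fun h => hq ((m_mem_below q W).2 h)
  have hqL : (q : 𝓞 L) ∉ (below L W).asIdeal := fun h => hqM ((m_mem_below q W).1 h)
  have heW : W.asIdeal.ramificationIdx (𝓞 K) = p := by
    rw [e_tower K L M W, hw, he, unr_cyc q (below L W) hqL W rfl, mul_one]
  have hcard : Nat.card (W.asIdeal.inertia (M ≃ₐ[K] M)) = p := by
    rw [b16_card (K := K) W, heW]
  have hne : W.asIdeal.inertia (M ≃ₐ[K] M) ≠ ⊥ := by
    intro h0
    rw [h0, Subgroup.card_bot] at hcard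
    exact hp.one_lt.ne hcard
  obtain ⟨h₁, hin, hne1⟩ : ∃ g : M ≃ₐ[K] M, g ∈ W.asIdeal.inertia (M ≃ₐ[K] M) ∧ g ≠ 1 := by
    obtain ⟨a, ha⟩ := Subgroup.ne_bot_iff_exists_ne_one.1 hne
    exact ⟨a, a.2, fun h => ha (Subtype.ext h)⟩
  have hin' : ∀ x : 𝓞 M, h₁ • x - x ∈ W.asIdeal := fun x => hin x
  -- the root of unity as an integer
  set z : 𝓞 M := hζ.toInteger with hz
  have hzc : (z : M) = ζ := rfl
  have hzq : z ^ q = 1 := hζ.toInteger_isPrimitiveRoot.pow_eq_one
  have hsz : ∀ s : M ≃ₐ[K] M, (s • z) ^ q = 1 := fun s => by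
    rw [← smul_pow', hzq, smul_one]
  have h1z : h₁ • z = z := b22_distinct W q hqM (hsz h₁) hzq (hin' z)
  have h1ζ : h₁ ζ = ζ := by
    have h := congrArg (fun y : 𝓞 M => (y : M)) h1z
    exact h
  have haut : hζ.autToPow K h₁ = 1 := by
    have h2 := hζ.autToPow_spec K h₁
    rw [h1ζ] at h2
    have h3 : ζ ^ ((hζ.autToPow K h₁ : (ZMod q)ˣ) : ZMod q).val = ζ ^ 1 := by rw [h2, pow_one]
    have hq1 : 1 ≤ q := Nat.one_le_iff_ne_zero.2 (NeZero.ne q)
    have h4 : ζ ^ (((hζ.autToPow K h₁ : (ZMod q)ˣ) : ZMod q).val + (q - 1)) = 1 := by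
      rw [pow_add, h3, ← pow_add, Nat.add_sub_cancel' hq1, hζ.pow_eq_one]
    have h5 := (ZMod.natCast_eq_zero_iff _ q).2 ((hζ.pow_eq_one_iff_dvd _).1 h4)
    rw [Nat.cast_add, ZMod.natCast_val, ZMod.cast_id', id, Nat.cast_sub hq1, ZMod.natCast_self, zero_sub, Nat.cast_one,
      ← sub_eq_add_neg, sub_eq_zero] at h5
    exact Units.ext h5
  have hres : AlgEquiv.restrictNormalHom L h₁ ≠ 1 := fun h => hne1 (x_inj (K := K) (L := L) hζ h₁ h haut)
  obtain ⟨h₂, hh₂⟩ := fr_one (K := K) W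
  have hfin : ∀ h : M ≃ₐ[K] M, (∀ x : 𝓞 M, h • x - x ^ Nm (below K W) ∈ W.asIdeal) → h ζ = ζ ^ Nm (below K W) := by
    intro h hh
    have h4 : h • z = z ^ Nm (below K W) := by
      refine b22_distinct W q hqM (hsz h) ?_ (hh z)
      rw [← pow_mul, mul_comm, pow_mul, hzq, one_pow]
    have h5 := congrArg (fun y : 𝓞 M => (y : M)) h4
    simp only [map_pow] at h5
    exact h5
  by_cases h2 : AlgEquiv.restrictNormalHom L h₂ = 1
  · refine ⟨h₂ * h₁, ?_, ?_, ?_⟩
    · intro x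
      have h6 : (h₂ * h₁) • x - x ^ Nm (below K W) = (h₂ • (h₁ • x) - (h₁ • x) ^ Nm (below K W)) +
          ((h₁ • x) ^ Nm (below K W) - x ^ Nm (below K W)) := by
        rw [mul_smul]
        ring
      rw [h6]
      exact add_mem (hh₂ _) (Ideal.mem_of_dvd _ (sub_dvd_pow_sub_pow _ _ _) (hin' x))
    · rw [map_mul, h2, one_mul]
      exact hres
    · rw [AlgEquiv.mul_apply, h1ζ]
      exact hfin h₂ hh₂
  · exact ⟨h₂, hh₂, h2, hfin h₂ hh₂⟩

end H16D
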