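import Mathlib
import Pool.Agent.Lib.CFT.B06
import Pool.Agent.Lib.CFT.B08
import Pool.Agent.Lib.CFT.B17
import Pool.Agent.Lib.CFT.X00
import Pool.Agent.Lib.CFT.X11

/-! # H16D, chunk A4: (S/M) the residue field of the fixed field of a Frobenius element -/

open NumberField IsDedekindDomain

namespace H16D

open CFT

variable {K : Type} [Field K] [NumberField K] {E : Type} [Field E] [NumberField E] [Algebra K E]
  {M : Type} [Field M] [NumberField M] [Algebra K M] [Algebra E M] [IsScalarTower K E M]

/-- PROOF. Let v = below K W, u = below E W. For x in O_E: h x = x, so x - x^(Nm v) is in W, hence in u (the ideal of u is the inverse image of that of W). So every element of the field k = O_E / u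
satisfies X^(Nm v) = X; this polynomial has at most Nm v roots (Nm v >= 2: x11_two, X11; FiniteField.X_pow_card_sub_X_natDegree_eq, Polynomial.card_roots'), so card k = Nm u <= Nm v. But Nm u = (Nm (below K u))^f
(Nm_below, B06) with below K u = v (below_below, B08) and f >= 1 (f_pos): so f = 1. -/
theorem fd1 (W : Pr M) (h : M ≃ₐ[K] M) (hh : ∀ x : 𝓞 M, h • x - x ^ Nm (below K W) ∈ W.asIdeal)
    (hE : ∀ x : E, h (algebraMap E M x) = algebraMap E M x) : (below E W).asIdeal.inertiaDeg (𝓞 K) = 1 := by
  classical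
  have hN : 2 ≤ Nm (below K W) := x11_two K _
  have hfix : ∀ x : 𝓞 E, x - x ^ Nm (below K W) ∈ (below E W).asIdeal := by
    intro x
    have h1 := hh (algebraMap (𝓞 E) (𝓞 M) x)
    have h2 : h • (algebraMap (𝓞 E) (𝓞 M) x) = algebraMap (𝓞 E) (𝓞 M) x := by
      apply RingOfIntegers.ext
      exact hE (x : E)
    rw [h2] at h1
    change algebraMap (𝓞 E) (𝓞 M) (x - x ^ Nm (below K W)) ∈ W.asIdeal
    rwa [map_sub, map_pow]
  have hmax : (below E W).asIdeal.IsMaximal := (below E W).isMaximal
  letI hfield : Field (𝓞 E ⧸ (below E W).asIdeal) := Ideal.Quotient.field (below E W).asIdeal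
  have hcard : Nat.card (𝓞 E ⧸ (below E W).asIdeal) = Nm (below E W) := by
    unfold Nm
    rw [Ideal.absNorm_apply, Submodule.cardQuot_apply]
  have hpos : 0 < Nm (below E W) := Nm_pos _
  have hfin : Finite (𝓞 E ⧸ (below E W).asIdeal) := Nat.finite_of_card_ne_zero (by rw [hcard]; exact hpos.ne')
  have hft : Fintype (𝓞 E ⧸ (below E W).asIdeal) := Fintype.ofFinite _
  have hne : (Polynomial.X ^ Nm (below K W) - Polynomial.X : Polynomial (𝓞 E ⧸ (below E W).asIdeal)) ≠ 0 :=
    FiniteField.X_pow_card_sub_X_ne_zero _ (by omega)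
  have hdeg : (Polynomial.X ^ Nm (below K W) - Polynomial.X : Polynomial (𝓞 E ⧸ (below E W).asIdeal)).natDegree =
      Nm (below K W) := FiniteField.X_pow_card_sub_X_natDegree_eq _ (by omega)
  have hsub : (Finset.univ : Finset (𝓞 E ⧸ (below E W).asIdeal)) ⊆
      (Polynomial.X ^ Nm (below K W) - Polynomial.X : Polynomial (𝓞 E ⧸ (below E W).asIdeal)).roots.toFinset := by
    intro y _
    rw [Multiset.mem_toFinset, Polynomial.mem_roots hne, Polynomial.IsRoot.def, Polynomial.eval_sub,
      Polynomial.eval_pow, Polynomial.eval_X]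
    obtain ⟨x, rfl⟩ := Ideal.Quotient.mk_surjective y
    have h3 := hfix x
    rw [← Ideal.Quotient.eq_zero_iff_mem, map_sub, map_pow] at h3
    rw [← neg_sub, h3, neg_zero]
  have h4 := (Finset.card_le_card hsub).trans ((Multiset.toFinset_card_le _).trans (Polynomial.card_roots' _))
  rw [Finset.card_univ, hdeg, ← Nat.card_eq_fintype_card, hcard, Nm_below (K := K) (below E W), below_below] at h4
  have h5 := f_pos (K := K) (below E W)
  by_contra hf
  have h6 : 2 ≤ (below E W).asIdeal.inertiaDeg (𝓞 K) := by omega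
  have h7 : Nm (below K W) ^ 2 ≤ Nm (below K W) ^ (below E W).asIdeal.inertiaDeg (𝓞 K) :=
    Nat.pow_le_pow_right (by omega) h6
  nlinarith

end H16D
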