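import Mathlib
import Pool.Agent.Lib.CFT.B13
import Pool.Agent.Lib.CFT.B18
import Pool.Agent.Lib.H16D.A1
import Pool.Agent.Lib.H16D.A2

/-! # H16D, chunk A5: (S/M) elements which are not units at v -/

open NumberField IsDedekindDomain

namespace H16D

open CFT

variable {K : Type} [Field K] [NumberField K] {L : Type} [Field L] [NumberField L] [Algebra K L]

/-- PROOF. w from ra1 (H16D.A2): the only prime above v, e = p, f = 1. N' from ray_norm (B13) for (S₁, N₀); α from ap1 (H16D.A1) in E = L, u = w, T = up L S₁ (w is not in it: mem_up, below K w = v), N'.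
y = N α: Ray S₁ N₀ y, and y has od v y = 1: the valuation of y at v is that of α at w (ra3, H16D.A2; od is minus the log of the valuation). art S χ (dv y) = art S χ (Nd K L (dv α)) = 0 (Nd_dv, B07; art_Nd, B18). Let k = od v x and x' = x y^(-k)
(zpow): Ray S₁ N₀ x' (Ray.mul, Ray.inv: by induction Ray for integer powers, or use dv and two cases), od v x' = 0, so art S χ (dv x') = 0 by h0, and dv x' = dv x - k dv y, so art S χ (dv x) = 0. -/
theorem an1 [IsGalois K L] (hab : ∀ a b : L ≃ₐ[K] L, a * b = b * a) {p : ℕ} (hp : p.Prime) (hd : Module.finrank K L = p)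
    (S S₁ : Finset (Pr K)) (v : Pr K) (hv : ¬ Unr K L v) (hv1 : v ∉ S₁) (hS : ∀ u : Pr K, ¬ Unr K L u → u ∈ S)
    {A : Type} [CommGroup A] (χ : (L ≃ₐ[K] L) →* A) (N₀ : ℕ) (h0 : ∀ x : K, Ray S₁ N₀ x → od v x = 0 → art S χ (dv x) = 0)
    (x : K) (hx : Ray S₁ N₀ x) : art S χ (dv x) = 0 := by
  obtain ⟨w, hwv, huniq, hram, hin⟩ := ra1 hp hd hv
  obtain ⟨N', hN'⟩ := ray_norm (K := K) (L := L) S₁ N₀
  obtain ⟨α, hα, hαo⟩ := ap1 w (up L S₁) (by rw [mem_up, hwv]; exact hv1) N'
  have hy : Ray S₁ N₀ (Algebra.norm K α) := hN' α hα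
  have hyv : od v (Algebra.norm K α) = 1 := by
    have h1 := ra3 w (fun w' hw' => huniq w' (hw'.trans hwv)) hin α
    rw [hwv] at h1
    rw [← hαo]
    unfold od
    rw [h1]
  have hart : art S χ (dv (Algebra.norm K α)) = 0 := by
    rw [← Nd_dv hα.ne]
    exact art_Nd hab S hS χ _
  have key : ∀ n : ℕ, ∀ x : K, Ray S₁ N₀ x → (od v x).natAbs = n → art S χ (dv x) = 0 := by
    intro n
    induction n with
    | zero => intro x hx h; exact h0 x hx (Int.natAbs_eq_zero.1 h)
    | succ n ih =>
      intro x hx h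
      rcases lt_or_ge 0 (od v x) with hpos | hneg
      · have h2 := ih (x * (Algebra.norm K α)⁻¹) (hx.mul hy.inv) (by
          rw [od_mul v hx.ne hy.inv.ne, od_inv, hyv]
          omega)
        rw [dv_mul hx.ne hy.inv.ne, dv_inv, map_add, map_neg, hart, neg_zero, add_zero] at h2
        exact h2
      · have h2 := ih (x * Algebra.norm K α) (hx.mul hy) (by
          rw [od_mul v hx.ne hy.ne, hyv]
          omega)
        rw [dv_mul hx.ne hy.ne, map_add, hart, add_zero] at h2
        exact h2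
  exact key _ x hx rfl

end H16D
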