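import Mathlib
import Pool.Agent.Lib.CFT.B18
import Pool.Agent.Lib.CFT.B20
import Pool.Agent.Lib.CFT.B22
import Pool.Agent.Lib.CFT.B24
import Pool.Agent.Lib.CFT.D2

/-! # H16D, chunk A6: (M) the action on roots of unity -/

open NumberField IsDedekindDomain

namespace H16D

open CFT

variable {K : Type} [Field K] [NumberField K] {M : Type} [Field M] [NumberField M] [Algebra K M]

/-- PROOF. Z = IntermediateField.adjoin K {ζ} (in IntermediateField K M) is a cyclotomic extension of K (hζ.intermediateField_adjoin_isCyclotomicExtension K), so Z/K is Galois and abelian (IsCyclotomicExtension.isGalois,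
cyc_comm, B22), unramified outside q (unr_cyc, B22). N from cyc_rec' (B24) for Z/K and S₂. Let y, G, e, g be as in the statement, r : Gal(M/K) -> Gal(Z/K) the restriction. Gal(Z/K) is commutative: make it a CommGroup
(let cg : CommGroup _ := { (inferInstance : Group _) with mul_comm := .. }, as in b27 / Core) and id : Gal(Z/K) -> Gal(Z/K) as a homomorphism to it.
By art_comp (D2) with f = r e⁻¹ : G -> Gal(Z/K) and by art_res (B20): ofMul (r g) = f (art S e (dv y)) = art S (id r) (dv y) = art S id (dv y) (for Z/K). Let D₀ = dv y - single v 1. art S id (single v 1) = 0 (v in S: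
art_single_of_mem), so it is art S id D₀ = art S₂ id D₀ (art_mono, D2: S₂ is contained in S, the only new prime is v and D₀ v = 0) = art S₂ id (dv y) - art S₂ id (single v 1)
= 0 - ofMul (frob K Z v) (cyc_rec'; art_single_of_notMem). So r g = (frob v)⁻¹. With ζ' = ζ as an element of Z: frob ζ' = ζ'^(Nm v) (fr_zeta, B22, with frob_spec (B17) at v, q is not in v since v is not in S₂).
So g ζ ^ (Nm v) = g (ζ^(Nm v)) = image of r g (frob ζ') = ζ (AlgEquiv.restrictNormal_commutes). -/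
theorem ze1 [IsGalois K M] (hab : ∀ a b : M ≃ₐ[K] M, a * b = b * a) {q : ℕ} [NeZero q] {ζ : M} (hζ : IsPrimitiveRoot ζ q)
    (S₂ S : Finset (Pr K)) (v : Pr K) (hv : v ∉ S₂) (hS : ∀ u, u ∈ S ↔ u = v ∨ u ∈ S₂) (hur : ∀ u : Pr K, ¬ Unr K M u → u ∈ S)
    (hq : ∀ u : Pr K, (q : 𝓞 K) ∈ u.asIdeal → u ∈ S₂) :
    ∃ N : ℕ, ∀ y : K, Ray S₂ N y → od v y = 1 → ∀ (G : Type) [CommGroup G] (e : (M ≃ₐ[K] M) ≃* G) (g : M ≃ₐ[K] M),
      art S (e : (M ≃ₐ[K] M) →* G) (dv y) = Additive.ofMul (e g) → g ζ ^ Nm v = ζ := by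
  classical
  let Z : IntermediateField K M := IntermediateField.adjoin K {ζ}
  have hZn : NumberField Z := NumberField.of_module_finite K Z
  have hcyc : IsCyclotomicExtension {q} K Z := hζ.intermediateField_adjoin_isCyclotomicExtension K
  have hZg : IsGalois K Z := IsCyclotomicExtension.isGalois {q} K Z
  have habZ : ∀ a b : Z ≃ₐ[K] Z, a * b = b * a := cyc_comm q
  obtain ⟨N, hN⟩ := cyc_rec' (K := K) (L := Z) q S₂ hq
  refine ⟨N, fun y hy hod G _ e g hg => ?_⟩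
  let cg : CommGroup (Z ≃ₐ[K] Z) := { (inferInstance : Group (Z ≃ₐ[K] Z)) with mul_comm := habZ }
  have hqv : (q : 𝓞 K) ∉ v.asIdeal := fun h => hv (hq v h)
  have hvS : v ∈ S := (hS v).2 (Or.inl rfl)
  have hsub : S₂ ⊆ S := fun u hu => (hS u).2 (Or.inr hu)
  have h0 := hN (Z ≃ₐ[K] Z) (MonoidHom.id (Z ≃ₐ[K] Z)) y hy
  have h2 := art_res K Z M hab S hur (MonoidHom.id (Z ≃ₐ[K] Z)) (dv y)
  rw [MonoidHom.id_comp] at h2
  have h3 := art_comp S ((AlgEquiv.restrictNormalHom Z : (M ≃ₐ[K] M) →* (Z ≃ₐ[K] Z)).comp (e.symm : G →* (M ≃ₐ[K] M)))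
    (e : (M ≃ₐ[K] M) →* G) (dv y)
  have h4 : ((AlgEquiv.restrictNormalHom Z : (M ≃ₐ[K] M) →* (Z ≃ₐ[K] Z)).comp (e.symm : G →* (M ≃ₐ[K] M))).comp (e : (M ≃ₐ[K] M) →* G) =
      (AlgEquiv.restrictNormalHom Z : (M ≃ₐ[K] M) →* (Z ≃ₐ[K] Z)) := by
    ext s y
    simp
  rw [h4, h2, hg] at h3
  have h5 : art S (MonoidHom.id (Z ≃ₐ[K] Z)) (dv y) =
      Additive.ofMul ((AlgEquiv.restrictNormalHom Z : (M ≃ₐ[K] M) →* (Z ≃ₐ[K] Z)) (e.symm (e g))) := h3
  rw [MulEquiv.symm_apply_apply] at h5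
  have h6 : dv y = (dv y - Finsupp.single v 1) + Finsupp.single v 1 := by abel
  have h7 : art S₂ (MonoidHom.id (Z ≃ₐ[K] Z)) (dv y - Finsupp.single v 1) =
      art S (MonoidHom.id (Z ≃ₐ[K] Z)) (dv y - Finsupp.single v 1) := by
    refine art_mono hsub _ fun u hu hu2 => ?_
    have h8 : u = v := ((hS u).1 hu).resolve_right hu2
    rw [h8, Finsupp.sub_apply, dv_apply, hod, Finsupp.single_eq_same, sub_self]
  have h9 : art S (MonoidHom.id (Z ≃ₐ[K] Z)) (dv y) = - Additive.ofMul (frob K Z v) := by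
    rw [h6, map_add, ← h7, map_sub, h0, art_single_of_mem _ hvS, art_single_of_notMem _ hv, one_smul, zero_sub, add_zero]
    rfl
  rw [h9] at h5
  have h10 : (AlgEquiv.restrictNormalHom Z : (M ≃ₐ[K] M) →* (Z ≃ₐ[K] Z)) g = (frob K Z v)⁻¹ := by
    have h11 := congrArg Additive.toMul h5
    exact h11.symm
  have hmem : ζ ∈ Z := IntermediateField.mem_adjoin_simple_self K ζ
  let ζ' : Z := ⟨ζ, hmem⟩
  have hz : ζ' ^ q = 1 := by
    apply Subtype.ext
    exact hζ.pow_eq_one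
  have h12 : frob K Z v ζ' = ζ' ^ Nm v := fr_zeta q v hqv (frob_spec habZ (unr_cyc q v hqv)) hz
  have h13 : (AlgEquiv.restrictNormalHom Z : (M ≃ₐ[K] M) →* (Z ≃ₐ[K] Z)) g (ζ' ^ Nm v) = ζ' := by
    rw [h10, ← h12, ← AlgEquiv.mul_apply, inv_mul_cancel]
    rfl
  have h14 : algebraMap Z M ((AlgEquiv.restrictNormalHom Z : (M ≃ₐ[K] M) →* (Z ≃ₐ[K] Z)) g (ζ' ^ Nm v)) =
      g (algebraMap Z M (ζ' ^ Nm v)) := AlgEquiv.restrictNormal_commutes g Z (ζ' ^ Nm v)
  rw [h13, map_pow, map_pow] at h14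
  exact h14.symm

end H16D
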