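import Mathlib
import Pool.Agent.Lib.CFT.B08
import Pool.Agent.Lib.CFT.B18
import Pool.Agent.Lib.CFT.B20
import Pool.Agent.Lib.CFT.D2

/-! # H16D, chunk A7: (M) the Artin symbol of a norm from a fixed field -/

open NumberField IsDedekindDomain

namespace H16D

open CFT

variable {K : Type} [Field K] [NumberField K] {M : Type} [Field M] [NumberField M] [Algebra K M]

/-- PROOF. E = IntermediateField.fixedField H; H is normal (hab), so E/K is Galois (instance IsGalois.of_fixedField_normal_subgroup; see b27_H in CFT/B27.lean, which contains all the steps), unramified outside S (unr_tower, B08), and Gal(E/K) is commutative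
(restrictNormalHom E is surjective from Gal(M/K): AlgEquiv.restrictNormalHom_surjective); make it a CommGroup. With f = restriction ∘ e⁻¹ : G -> Gal(E/K): art_comp (D2), art_res (B20) give
ofMul (restriction of g) = art S id (Nd D) (for E/K) = 0 (art_Nd, B18). So g is trivial on E: g is in the fixing subgroup of E, which is H (IntermediateField.fixingSubgroup_fixedField). -/
theorem me1 [IsGalois K M] (hab : ∀ a b : M ≃ₐ[K] M, a * b = b * a) (S : Finset (Pr K)) (hur : ∀ u : Pr K, ¬ Unr K M u → u ∈ S)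
    (H : Subgroup (M ≃ₐ[K] M)) (D : Dv (IntermediateField.fixedField H)) (G : Type) [CommGroup G] (e : (M ≃ₐ[K] M) ≃* G) (g : M ≃ₐ[K] M)
    (hg : art S (e : (M ≃ₐ[K] M) →* G) (Nd K (IntermediateField.fixedField H) D) = Additive.ofMul (e g)) : g ∈ H := by
  classical
  let E : IntermediateField K M := IntermediateField.fixedField H
  have hN : H.Normal := ⟨fun n hn k => by
    rw [hab k n, mul_inv_cancel_right]
    exact hn⟩
  have hEg : IsGalois K E := IsGalois.of_fixedField_normal_subgroup H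
  have habE : ∀ a b : E ≃ₐ[K] E, a * b = b * a := by
    intro a b
    obtain ⟨a', rfl⟩ := AlgEquiv.restrictNormalHom_surjective (F := K) (K₁ := E) M a
    obtain ⟨b', rfl⟩ := AlgEquiv.restrictNormalHom_surjective (F := K) (K₁ := E) M b
    rw [← map_mul, hab, map_mul]
  have hSE : ∀ v : Pr K, ¬ Unr K E v → v ∈ S := by
    intro v hv
    by_contra hvS
    have h1 : Unr K M v := by
      by_contra h
      exact hvS (hur v h)
    exact hv (unr_tower K E M h1).1
  let cg : CommGroup (E ≃ₐ[K] E) := { (inferInstance : Group (E ≃ₐ[K] E)) with mul_comm := habE }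
  have h1 : art S (MonoidHom.id (E ≃ₐ[K] E)) (Nd K E D) = 0 := art_Nd habE S hSE (MonoidHom.id (E ≃ₐ[K] E)) D
  have h2 := art_res K E M hab S hur (MonoidHom.id (E ≃ₐ[K] E)) (Nd K E D)
  rw [h1, MonoidHom.id_comp] at h2
  have h3 := art_comp S ((AlgEquiv.restrictNormalHom E : (M ≃ₐ[K] M) →* (E ≃ₐ[K] E)).comp (e.symm : G →* (M ≃ₐ[K] M)))
    (e : (M ≃ₐ[K] M) →* G) (Nd K E D)
  have h4 : ((AlgEquiv.restrictNormalHom E : (M ≃ₐ[K] M) →* (E ≃ₐ[K] E)).comp (e.symm : G →* (M ≃ₐ[K] M))).comp (e : (M ≃ₐ[K] M) →* G) =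
      (AlgEquiv.restrictNormalHom E : (M ≃ₐ[K] M) →* (E ≃ₐ[K] E)) := by
    ext s y
    simp
  rw [h4, h2] at h3
  have h3' : (0 : Additive (E ≃ₐ[K] E)) = MonoidHom.toAdditive ((AlgEquiv.restrictNormalHom E : (M ≃ₐ[K] M) →* (E ≃ₐ[K] E)).comp (e.symm : G →* (M ≃ₐ[K] M)))
      (Additive.ofMul (e g)) := by
    rw [← hg]
    exact h3
  have h5 : (AlgEquiv.restrictNormalHom E : (M ≃ₐ[K] M) →* (E ≃ₐ[K] E)) g = 1 := by
    have h7 : (AlgEquiv.restrictNormalHom E : (M ≃ₐ[K] M) →* (E ≃ₐ[K] E)) (e.symm (e g)) = 1 := Additive.ofMul.injective h3'.symm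
    rwa [MulEquiv.symm_apply_apply] at h7
  have h8 : g ∈ (AlgEquiv.restrictNormalHom E : (M ≃ₐ[K] M) →* (E ≃ₐ[K] E)).ker := h5
  rw [IntermediateField.restrictNormalHom_ker, IntermediateField.fixingSubgroup_fixedField] at h8
  exact h8

end H16D
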