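import Mathlib
import Pool.Agent.Lib.CFT.B13
import Pool.Agent.Lib.CFT.B20
import Pool.Agent.Lib.CFT.X06
import Pool.Agent.Lib.CFT.X11
import Pool.Agent.Lib.CFT.X12
import Pool.Agent.Lib.CFT.X13
import Pool.Agent.Lib.H16D.A1
import Pool.Agent.Lib.H16D.A2
import Pool.Agent.Lib.H16D.A3
import Pool.Agent.Lib.H16D.A4
import Pool.Agent.Lib.H16D.A5
import Pool.Agent.Lib.H16D.A6
import Pool.Agent.Lib.H16D.A7

/-! # H16D, chunk A8: (M) the ramified primes divide the conductor -/

open NumberField IsDedekindDomain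

namespace H16D

open CFT

variable {K : Type} [Field K] [NumberField K] {L : Type} [Field L] [NumberField L] [Algebra K L]

/-- the set of primes containing a nonzero natural number is finite -/
theorem a8_fin {q : ℕ} (hq : q ≠ 0) : {u : Pr K | (q : 𝓞 K) ∈ u.asIdeal}.Finite := by
  have h0 : (q : 𝓞 K) ≠ 0 := by exact_mod_cast hq
  refine (fin_int h0).subset fun u hu => ?_
  exact ((u.valuation_lt_one_iff_mem (q : 𝓞 K)).2 hu).ne

section core

variable {M : Type} [Field M] [NumberField M] [Algebra K M] [Algebra L M] [IsScalarTower K L M]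

/-- the degree of the norm -/
theorem a8_od {E : Type} [Field E] [NumberField E] [Algebra K E] {v : Pr K} {u : Pr E} (hu : below K u = v)
    (hf : u.asIdeal.inertiaDeg (𝓞 K) = 1) {α : E} (hα : α ≠ 0) (h1 : od u α = 1)
    (h2 : ∀ u' : Pr E, below K u' = v → u' ≠ u → od u' α = 0) : od v (Algebra.norm K α) = 1 := by
  classical
  have h3 : dv (Algebra.norm K α) v = 1 := by
    rw [← Nd_dv hα, Nd_apply, Finset.sum_eq_single u]
    · rw [hf, dv_apply, h1]
      norm_num
    · intro b hb hbu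
      rw [dv_apply, h2 b ((mem_abv v b).1 hb) hbu, mul_zero]
    · intro h
      exact absurd ((mem_abv v u).2 hu) h
  exact h3

theorem a8_mod {F : Type} [Field F] {q : ℕ} [NeZero q] {ζ : F} (hζ : IsPrimitiveRoot ζ q) {a b : ℕ} (h : ζ ^ a = ζ ^ b) :
    (a : ZMod q) = (b : ZMod q) := by
  rw [pow_eq_pow_mod a hζ.pow_eq_one, pow_eq_pow_mod b hζ.pow_eq_one] at h
  have h4 := hζ.pow_inj (Nat.mod_lt _ (Nat.pos_of_ne_zero (NeZero.ne q))) (Nat.mod_lt _ (Nat.pos_of_ne_zero (NeZero.ne q))) h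
  rw [ZMod.natCast_eq_natCast_iff]
  exact h4

/-- the exponents -/
theorem a8_exp [IsGalois K L] [IsGalois K M] {p : ℕ} (hp : p.Prime) (hd : Module.finrank K L = p) {q : ℕ} [NeZero q]
    {ζ : M} (hζ : IsPrimitiveRoot ζ q) (n : ℕ) (hord : p ∣ orderOf (n : ZMod q)) (h g : M ≃ₐ[K] M) (k : ℤ) (hk : h ^ k = g)
    (hres : AlgEquiv.restrictNormalHom L h ≠ 1) (hres2 : AlgEquiv.restrictNormalHom L g = 1) (h1 : h ζ = ζ ^ n)
    (h2 : g ζ ^ n = ζ) : False := by
  -- p divides k
  have hcard : Nat.card (L ≃ₐ[K] L) = p := by rw [IsGalois.card_aut_eq_finrank, hd]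
  have ho : orderOf (AlgEquiv.restrictNormalHom L h) = p := by
    have h3 : orderOf (AlgEquiv.restrictNormalHom L h) ∣ p := by
      rw [← hcard]
      exact orderOf_dvd_natCard _
    rcases (Nat.dvd_prime hp).1 h3 with h4 | h4
    · exact absurd (orderOf_eq_one_iff.1 h4) hres
    · exact h4
  have hpk : (p : ℤ) ∣ k := by
    rw [← ho, orderOf_dvd_iff_zpow_eq_one, ← map_zpow, hk, hres2]
  -- p divides k + 1
  have e1 : ((hζ.autToPow K h : (ZMod q)ˣ) : ZMod q) = (n : ZMod q) := by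
    have h3 := hζ.autToPow_spec K h
    rw [h1] at h3
    have h5 := a8_mod hζ h3
    rw [ZMod.natCast_zmod_val] at h5
    exact h5
  have e2 : ((hζ.autToPow K g : (ZMod q)ˣ) : ZMod q) * (n : ZMod q) = 1 := by
    have h3 := hζ.autToPow_spec K g
    rw [← h3, ← pow_mul] at h2
    have h2' : ζ ^ (((hζ.autToPow K g : (ZMod q)ˣ) : ZMod q).val * n) = ζ ^ 1 := by rw [h2, pow_one]
    have h5 := a8_mod hζ h2'
    rw [Nat.cast_mul, ZMod.natCast_zmod_val, Nat.cast_one] at h5
    exact h5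
  have e3 : (hζ.autToPow K h) ^ (k + 1) = 1 := by
    rw [zpow_add, zpow_one, ← map_zpow, hk]
    apply Units.ext
    rw [Units.val_mul, e1, e2, Units.val_one]
  have e4 : (p : ℤ) ∣ k + 1 := by
    have h3 : (orderOf (hζ.autToPow K h) : ℤ) ∣ k + 1 := orderOf_dvd_iff_zpow_eq_one.2 e3
    have h4 : orderOf (hζ.autToPow K h) = orderOf (n : ZMod q) := by rw [← e1, orderOf_units]
    rw [h4] at h3
    exact (Int.natCast_dvd_natCast.2 hord).trans h3
  have e5 : (p : ℤ) ∣ 1 := by
    have := dvd_sub e4 hpk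
    simpa using this
  have e6 := Int.natAbs_dvd_natAbs.2 e5
  simp at e6
  exact hp.one_lt.ne' e6

theorem a8_core [IsGalois K L] [IsGalois K M] (hab : ∀ a b : L ≃ₐ[K] L, a * b = b * a) (habM : ∀ a b : M ≃ₐ[K] M, a * b = b * a)
    {p : ℕ} (hp : p.Prime) (hd : Module.finrank K L = p)
    (S S₁ : Finset (Pr K)) (v : Pr K) (hv : ¬ Unr K L v) (hv1 : v ∉ S₁) (hS : ∀ u, u ∈ S ↔ u = v ∨ u ∈ S₁) (hur : ∀ u : Pr K, ¬ Unr K L u → u ∈ S)
    {A : Type} [CommGroup A] (χ : (L ≃ₐ[K] L) →* A) (hχ : Function.Injective χ) (N : ℕ)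
    (h0 : ∀ x : K, Ray S₁ N x → od v x = 0 → art S χ (dv x) = 0)
    {q : ℕ} [NeZero q] [IsCyclotomicExtension {q} L M] {ζ : M} (hζ : IsPrimitiveRoot ζ q) (hqv : (q : 𝓞 K) ∉ v.asIdeal)
    (hord : p ∣ orderOf (Nm v : ZMod q)) (G : Type) [CommGroup G] (e : (M ≃ₐ[K] M) ≃* G) : False := by
  classical
  obtain ⟨W, hW⟩ := below_surj (K := K) (L := M) v
  obtain ⟨h, hh, hres, hζh⟩ := fe1 hp hd hζ W (by rw [hW]; exact hv) (by rw [hW]; exact hqv)
  have hEfix : ∀ x : IntermediateField.fixedField (Subgroup.zpowers h), h (algebraMap _ M x) = algebraMap _ M x := by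
    intro x
    exact (IntermediateField.mem_fixedField_iff _ _).1 x.2 h (Subgroup.mem_zpowers h)
  have hf := fd1 (E := IntermediateField.fixedField (Subgroup.zpowers h)) W h hh hEfix
  have hbu : below K (below (IntermediateField.fixedField (Subgroup.zpowers h)) W) = v := by
    rw [below_below, hW]
  -- the sets
  have hq0 : q ≠ 0 := NeZero.ne q
  obtain ⟨S₂, hS₂⟩ : ∃ S₂ : Finset (Pr K), ∀ u, u ∈ S₂ ↔ u ∈ S₁ ∨ (q : 𝓞 K) ∈ u.asIdeal :=
    ⟨S₁ ∪ (a8_fin (K := K) hq0).toFinset, fun u => by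
      rw [Finset.mem_union, Set.Finite.mem_toFinset]; rfl⟩
  have hv2 : v ∉ S₂ := by
    rw [hS₂]
    rintro (h1 | h1)
    · exact hv1 h1
    · exact hqv h1
  have hS3 : ∀ u, u ∈ insert v S₂ ↔ u = v ∨ u ∈ S₂ := fun u => Finset.mem_insert
  have hur3 : ∀ u : Pr K, ¬ Unr K M u → u ∈ insert v S₂ := by
    intro u hu
    by_contra hu3
    rw [hS3, not_or, hS₂, not_or] at hu3
    have h1 : Unr K L u := by
      by_contra h2
      rcases (hS u).1 (hur u h2) with h3 | h3
      · exact hu3.1 h3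
      · exact hu3.2.1 h3
    exact hu (x_unr (m := q) h1 hu3.2.2)
  obtain ⟨N₂, hN₂⟩ := ze1 habM hζ S₂ (insert v S₂) v hv2 hS3 hur3 (fun u hu => (hS₂ u).2 (Or.inr hu))
  obtain ⟨N', hN'⟩ := ray_norm (K := K) (L := IntermediateField.fixedField (Subgroup.zpowers h)) S₂ (max N N₂)
  obtain ⟨α, hα, hαu⟩ := ap1 (below (IntermediateField.fixedField (Subgroup.zpowers h)) W)
    (up (IntermediateField.fixedField (Subgroup.zpowers h)) S₂ ∪
      ((abv (IntermediateField.fixedField (Subgroup.zpowers h)) v).erase (below (IntermediateField.fixedField (Subgroup.zpowers h)) W)))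
    (by
      rw [Finset.mem_union, mem_up, hbu]
      rintro (h1 | h1)
      · exact hv2 h1
      · exact (Finset.mem_erase.1 h1).1 rfl) N'
  have hy : Ray S₂ (max N N₂) (Algebra.norm K α) := hN' α (hα.mono Finset.subset_union_left le_rfl)
  have hyv : od v (Algebra.norm K α) = 1 := by
    refine a8_od hbu hf hα.ne hαu fun u' hu' hne => ?_
    exact hα.od_eq (Finset.mem_union_right _ (Finset.mem_erase.2 ⟨hne, (mem_abv v u').2 hu'⟩))
  obtain ⟨g, hg⟩ : ∃ g : M ≃ₐ[K] M, art (insert v S₂) (e : (M ≃ₐ[K] M) →* G) (dv (Algebra.norm K α)) = Additive.ofMul (e g) :=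
    ⟨e.symm (Additive.toMul (art (insert v S₂) (e : (M ≃ₐ[K] M) →* G) (dv (Algebra.norm K α)))), by simp⟩
  have hgH : g ∈ Subgroup.zpowers h := me1 habM (insert v S₂) hur3 (Subgroup.zpowers h) (dv α) G e g (by
    rw [Nd_dv hα.ne]; exact hg)
  obtain ⟨k, hk⟩ := Subgroup.mem_zpowers_iff.1 hgH
  have hgζ := hN₂ (Algebra.norm K α) (hy.mono (Finset.Subset.refl _) (le_max_right _ _)) hyv G e g hg
  have hart0 : art S χ (dv (Algebra.norm K α)) = 0 := an1 hab hp hd S S₁ v hv hv1 hur χ N h0 _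
    (hy.mono (fun u hu => (hS₂ u).2 (Or.inl hu)) (le_max_left _ _))
  have hart1 : art (insert v S₂) χ (dv (Algebra.norm K α)) = 0 := by
    rw [← hart0]
    refine (art_mono (fun u hu => ?_) χ fun u hu huS => ?_).symm
    · rw [hS3, hS₂]
      rcases (hS u).1 hu with h1 | h1
      · exact Or.inl h1
      · exact Or.inr (Or.inl h1)
    · rw [dv_apply]
      rcases (hS3 u).1 hu with h1 | h1
      · exact absurd ((hS u).2 (Or.inl h1)) huS
      · exact hy.od_eq h1
  have hres2 : AlgEquiv.restrictNormalHom L g = 1 := by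
    have h1 := art_res K L M habM (insert v S₂) hur3 χ (dv (Algebra.norm K α))
    rw [hart1] at h1
    have h2 := art_comp (insert v S₂) ((χ.comp (AlgEquiv.restrictNormalHom L : (M ≃ₐ[K] M) →* (L ≃ₐ[K] L))).comp
      (e.symm : G →* (M ≃ₐ[K] M))) (e : (M ≃ₐ[K] M) →* G) (dv (Algebra.norm K α))
    have h3 : ((χ.comp (AlgEquiv.restrictNormalHom L : (M ≃ₐ[K] M) →* (L ≃ₐ[K] L))).comp
      (e.symm : G →* (M ≃ₐ[K] M))).comp (e : (M ≃ₐ[K] M) →* G) = χ.comp (AlgEquiv.restrictNormalHom L : (M ≃ₐ[K] M) →* (L ≃ₐ[K] L)) := by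
      ext x
      simp
    rw [h3, h1, hg] at h2
    have h4 : χ (AlgEquiv.restrictNormalHom L g) = 1 := by
      have h5 := congrArg Additive.toMul h2
      simpa using h5.symm
    exact hχ (h4.trans (map_one χ).symm)
  exact a8_exp hp hd hζ (Nm v) hord h g k hk hres hres2 (by rw [hζh, hW]) hgζ

end core

/-- PROOF. By contradiction: h0 : for all x with Ray S₁ N x, od v x = 0 we have art S χ (dv x) = 0; N₀ = N. q prime from x_primes (X06): a = Nm v, l = p, r = 1, B = the primes q with q in v (x11_fin, X11). M = CyclotomicField q L, a number field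
(IsCyclotomicExtension.numberField {q} L M; the tower instances K, L, M as in CFT/X25.lean, lines 33-35), ζ = IsCyclotomicExtension.zeta q L M. w above v from ra1 (A2), W above w (below_surj, B06), below K W = v (below_below, B08). M/K is Galois and abelian (x_gal, x_comm, X12). h from fe1 (A3), H = zpowers h, E = fixedField H, u = below E W: u has residue degree 1 over v (fd1, A4;
the elements of E are fixed by h), below K u = v. S₂ = S₁ ∪ {primes of K containing q} (a finite set: HeightOneSpectrum primes dividing the nonzero ideal (q); see how B23 / B22 / X16 get it, or Ideal.finite_factors), v is not in S₂; S₃ = insert v S₂ (classical).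
Unr K M fails only in S₃ (x_unr, X13: unramified in L and q not in the ideal). N₂ from ze1 (A6) for (S₂, S₃, v). N' from ray_norm (B13) for E/K, (S₂, max N₀ N₂). α from ap1 (A1) in E with u and
T = up E S₂ ∪ ((abv E v).erase u), N': od u α = 1, od u' α = 0 for the other u' above v (Ray.od_eq, D2), Ray (up E S₂) N' α. y = N_{E/K} α: Ray S₂ (max N₀ N₂) y, od v y = sum of f(u') od u' α = 1 (Nd_dv, Nd_apply). The group
G = Gal(M/K) as a CommGroup, e = MulEquiv.refl; g = art S₃ e (dv y) as an element. me1 (A7), D = dv α, Nd D = dv y (Nd_dv): g in zpowers h, g = h^k (k an integer). ze1: (g ζ)^(Nm v) = ζ.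
h0 is the negation of the assertion: by an1 (A5) (y is in the ray S₁, N₀ by Ray.mono) art S χ (dv y) = 0 for L/K. art S χ (dv y) = art S₃ χ (dv y) for L/K by art_mono (D2): S ⊆ S₃, the new primes are in S₂ and od y = 0 there (Ray.od_eq). So by art_res (B20, S₃) and art_comp: χ (restriction of g to L) = 1, g is trivial on L (χ injective), so (restriction of h)^k = 1;
the restriction of h is ≠ 1 in a group with p elements, so it has order p and p divides k. And g ζ = ζ^((Nm v)^k) (k integer; if k < 0 use h^(-k)): from (g ζ)^(Nm v) = ζ: (Nm v)^(k+1) = 1 in (ZMod q)ˣ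
(e.g. the homomorphism autToPow: β h = Nm v as a unit, β g * Nm v = 1, IsPrimitiveRoot.autToPow_spec), so the order of Nm v in ZMod q divides k + 1, so p divides k + 1 (x_primes, X06, with a = Nm v >= 2 (x11_two), l = p, r = 1, B = the primes q in v (x11_fin)): contradiction. -/
theorem cd1 [IsGalois K L] (hab : ∀ a b : L ≃ₐ[K] L, a * b = b * a) {p : ℕ} (hp : p.Prime) (hd : Module.finrank K L = p)
    (S S₁ : Finset (Pr K)) (v : Pr K) (hv : ¬ Unr K L v) (hv1 : v ∉ S₁) (hS : ∀ u, u ∈ S ↔ u = v ∨ u ∈ S₁) (hur : ∀ u : Pr K, ¬ Unr K L u → u ∈ S)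
    {A : Type} [CommGroup A] (χ : (L ≃ₐ[K] L) →* A) (hχ : Function.Injective χ) (N : ℕ) :
    ∃ x : K, Ray S₁ N x ∧ od v x = 0 ∧ art S χ (dv x) ≠ 0 := by
  by_contra hcon
  push Not at hcon
  obtain ⟨q, hq, hqB, -, hord, -⟩ := x_primes (x11_two K v) hp 1 {q : ℕ | q.Prime ∧ (q : 𝓞 K) ∈ v.asIdeal} (x11_fin K v)
  haveI : NeZero q := ⟨hq.ne_zero⟩
  let M := CyclotomicField q L
  haveI : NumberField M := IsCyclotomicExtension.numberField {q} L M
  have hζ : IsPrimitiveRoot (IsCyclotomicExtension.zeta q L M) q := IsCyclotomicExtension.zeta_spec q L M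
  haveI : IsGalois K M := x_gal K L M q
  have habM : ∀ a b : M ≃ₐ[K] M, a * b = b * a := x_comm (K := K) (L := L) (M := M) hζ hab
  letI : CommGroup (M ≃ₐ[K] M) := { (inferInstance : Group (M ≃ₐ[K] M)) with mul_comm := habM }
  rw [pow_one] at hord
  exact a8_core (M := M) hab habM hp hd S S₁ v hv hv1 hS hur χ hχ N hcon hζ (fun h => hqB ⟨hq, h⟩) hord (M ≃ₐ[K] M)
    (MulEquiv.refl (M ≃ₐ[K] M))

end H16D
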