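import Mathlib

/-! # H16D, chunk A9: (M) the norm of 1 + z in a Galois extension of prime degree -/

open NumberField IsDedekindDomain

namespace H16D

open Pointwise in
theorem a9_free {G X M : Type} [Group G] [Fintype G] [DecidableEq G] [MulAction G X] [DecidableEq X] [AddCommMonoid M] (F : X → M) (S : Finset X)
    (hS : ∀ (g : G), ∀ x ∈ S, g • x ∈ S) (hf : ∀ (g : G), ∀ x ∈ S, g • x = x → g = 1) :
    ∃ R : Finset X, R ⊆ S ∧ ∑ x ∈ S, F x = ∑ r ∈ R, ∑ g : G, F (g • r) := by
  induction S using Finset.strongInductionOn with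
  | _ S ih =>
    rcases S.eq_empty_or_nonempty with h0 | ⟨x, hx⟩
    · refine ⟨∅, Finset.empty_subset _, ?_⟩
      rw [h0, Finset.sum_empty, Finset.sum_empty]
    · have hO : (Finset.univ.image fun g : G => g • x) ⊆ S := by
        intro y hy
        obtain ⟨g, -, rfl⟩ := Finset.mem_image.1 hy
        exact hS g x hx
      have hxO : x ∈ Finset.univ.image fun g : G => g • x := Finset.mem_image.2 ⟨1, Finset.mem_univ _, one_smul _ _⟩
      have hlt : S \ (Finset.univ.image fun g : G => g • x) ⊂ S := by
        refine Finset.ssubset_iff_subset_ne.2 ⟨Finset.sdiff_subset, ?_⟩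
        intro h
        have h2 := hx
        rw [← h, Finset.mem_sdiff] at h2
        exact h2.2 hxO
      obtain ⟨R, hR1, hR2⟩ := ih _ hlt (by
        intro g y hy
        rw [Finset.mem_sdiff] at hy ⊢
        refine ⟨hS g y hy.1, ?_⟩
        intro h
        obtain ⟨k, -, hk⟩ := Finset.mem_image.1 h
        refine hy.2 (Finset.mem_image.2 ⟨g⁻¹ * k, Finset.mem_univ _, ?_⟩)
        show (g⁻¹ * k) • x = y
        rw [mul_smul, hk, inv_smul_smul]) (by
        intro g y hy h
        exact hf g y (Finset.mem_sdiff.1 hy).1 h)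
      have hxR : x ∉ R := fun h => (Finset.mem_sdiff.1 (hR1 h)).2 hxO
      refine ⟨insert x R, Finset.insert_subset hx (hR1.trans Finset.sdiff_subset), ?_⟩
      rw [Finset.sum_insert hxR, ← hR2, ← Finset.sum_sdiff hO, add_comm]
      refine congrArg₂ (· + ·) ?_ rfl
      rw [Finset.sum_image]
      intro g _ k _ hgk
      have h1 : (k⁻¹ * g) • x = x := by
        rw [mul_smul]
        rw [show g • x = k • x from hgk, inv_smul_smul]
      exact (inv_mul_eq_one.1 (hf _ x hx h1)).symm

open Pointwise in
theorem a9_act {G : Type} [Group G] [Fintype G] [DecidableEq G] (hG : (Nat.card G).Prime) (g : G) (X : Finset G) (h0 : X.Nonempty) (h1 : X ≠ Finset.univ)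
    (h : g • X = X) : g = 1 := by
  haveI : Fact (Nat.card G).Prime := ⟨hG⟩
  rcases (MulAction.stabilizer G X).eq_bot_or_eq_top_of_prime_card with h2 | h2
  · have h3 : g ∈ MulAction.stabilizer G X := h
    rw [h2] at h3
    exact Subgroup.mem_bot.1 h3
  · refine absurd ?_ h1
    obtain ⟨x, hx⟩ := h0
    refine Finset.eq_univ_iff_forall.2 fun y => ?_
    have h3 : y * x⁻¹ ∈ MulAction.stabilizer G X := by
      rw [h2]
      exact Subgroup.mem_top _
    have h4 : (y * x⁻¹) • X = X := h3
    rw [← h4]
    refine Finset.mem_smul_finset.2 ⟨x, hx, ?_⟩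
    rw [smul_eq_mul, inv_mul_cancel_right]

open Pointwise in
theorem a9_prod {K L : Type} [Field K] [Field L] [Algebra K L] [DecidableEq (L ≃ₐ[K] L)] (z : L) (g : L ≃ₐ[K] L) (X : Finset (L ≃ₐ[K] L)) :
    ∏ s ∈ g • X, s z = g (∏ s ∈ X, s z) := by
  rw [Finset.smul_finset_def, Finset.prod_image, map_prod]
  · rfl
  · intro a _ b _ hab
    exact mul_left_cancel hab

open Pointwise in
/-- PROOF. G = Gal(L/K) has p elements (IsGalois.card_aut_eq_finrank). N(1 + z) = prod_s (1 + s z) (Algebra.norm_eq_prod_automorphisms) = sum over the subsets X of G of P(X) = prod_{s in X} s z (Finset.prod_one_add or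
Finset.prod_add). X = ∅ gives 1, X = G gives N z. Let Ω be the subtype (or Finset) of the other X. G acts on Ω by left translation (g X = X.image (g * ·); in Mathlib Finset has the pointwise action, open Pointwise) and P(g X) = g (P X). The action is free: the stabilizer of X is a subgroup of the
group G of prime order, so 1 or G (e.g. Subgroup of a group of prime order: Subgroup.eq_bot_or_eq_top_of_prime_card); if it is G and X is nonempty then X = G. Choose a representative o.out for every orbit o: (o, g) ↦ g • o.out is a bijection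
from (orbits) × G to Ω, so the sum of P over Ω is the sum over o and g of g (P (o.out)) = trace of y, y = sum_o P(o.out) (Algebra.trace_eq_sum_automorphisms or similar name). V (P X) = product of V (s z) = V z ^ card X
<= V z as card X >= 1 and V z <= 1; so V y <= V z (Valuation.map_sum_le).
(Another way: G is cyclic, generated by σ; the same with subsets of ZMod p.) -/
theorem fo1 {K L : Type} [Field K] [Field L] [Algebra K L] [FiniteDimensional K L] [IsGalois K L] {p : ℕ} (hp : p.Prime) (hd : Module.finrank K L = p)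
    {Γ : Type} [LinearOrderedCommGroupWithZero Γ] (V : Valuation L Γ) (hV : ∀ (s : L ≃ₐ[K] L) (x : L), V (s x) = V x) (z : L) (hz : V z ≤ 1) :
    ∃ y : L, V y ≤ V z ∧ Algebra.norm K (1 + z) = 1 + Algebra.trace K L y + Algebra.norm K z := by
  classical
  have hG : (Nat.card (L ≃ₐ[K] L)).Prime := by
    rw [IsGalois.card_aut_eq_finrank, hd]
    exact hp
  have hne : (Finset.univ : Finset (L ≃ₐ[K] L)) ≠ ∅ := Finset.univ_nonempty.ne_empty
  obtain ⟨R, hR1, hR2⟩ := a9_free (G := L ≃ₐ[K] L) (fun X : Finset (L ≃ₐ[K] L) => ∏ s ∈ X, s z)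
    (((Finset.univ : Finset (L ≃ₐ[K] L)).powerset.erase ∅).erase Finset.univ) (by
      intro g X hX
      rw [Finset.mem_erase, Finset.mem_erase] at hX ⊢
      refine ⟨?_, ?_, Finset.mem_powerset.2 (Finset.subset_univ _)⟩
      · intro h
        apply hX.1
        rw [← inv_smul_smul g X, h, Finset.smul_finset_univ]
      · intro h
        apply hX.2.1
        rw [← inv_smul_smul g X, h, Finset.smul_finset_empty]) (by
      intro g X hX h
      rw [Finset.mem_erase, Finset.mem_erase] at hX
      exact a9_act hG g X (Finset.nonempty_iff_ne_empty.2 hX.2.1) hX.1 h)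
  refine ⟨∑ r ∈ R, ∏ s ∈ r, s z, ?_, ?_⟩
  · refine Valuation.map_sum_le V fun r hr => ?_
    have h1 := hR1 hr
    rw [Finset.mem_erase, Finset.mem_erase] at h1
    rw [map_prod, Finset.prod_congr rfl fun s _ => hV s z, Finset.prod_const]
    exact pow_le_of_le_one zero_le hz (Finset.card_ne_zero.2 (Finset.nonempty_iff_ne_empty.2 h1.2.1))
  · apply (algebraMap K L).injective
    have e1 : algebraMap K L (Algebra.norm K (1 + z)) = ∑ X ∈ (Finset.univ : Finset (L ≃ₐ[K] L)).powerset, ∏ s ∈ X, s z := by
      rw [Algebra.norm_eq_prod_automorphisms, ← Finset.prod_one_add]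
      refine Finset.prod_congr rfl fun s _ => ?_
      rw [map_add, map_one]
    have e2 : ∑ X ∈ (Finset.univ : Finset (L ≃ₐ[K] L)).powerset, ∏ s ∈ X, s z
        = (∏ s ∈ (∅ : Finset (L ≃ₐ[K] L)), s z) + ((∏ s ∈ (Finset.univ : Finset (L ≃ₐ[K] L)), s z) +
          ∑ X ∈ ((Finset.univ : Finset (L ≃ₐ[K] L)).powerset.erase ∅).erase Finset.univ, ∏ s ∈ X, s z) := by
      have h1 := Finset.add_sum_erase ((Finset.univ : Finset (L ≃ₐ[K] L)).powerset.erase ∅) (fun X : Finset (L ≃ₐ[K] L) => ∏ s ∈ X, s z)
        (Finset.mem_erase.2 ⟨hne, Finset.mem_powerset.2 (Finset.subset_univ _)⟩)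
      have h2 := Finset.add_sum_erase (Finset.univ : Finset (L ≃ₐ[K] L)).powerset (fun X : Finset (L ≃ₐ[K] L) => ∏ s ∈ X, s z)
        (Finset.mem_powerset.2 (Finset.empty_subset _))
      rw [h1, h2]
    rw [e1, e2, hR2, Finset.prod_empty, map_add, map_add, map_one, Algebra.norm_eq_prod_automorphisms, trace_eq_sum_automorphisms]
    have e3 : ∑ r ∈ R, ∑ g : L ≃ₐ[K] L, ∏ s ∈ g • r, s z = ∑ g : L ≃ₐ[K] L, g (∑ r ∈ R, ∏ s ∈ r, s z) := by
      rw [Finset.sum_comm]
      refine Finset.sum_congr rfl fun g _ => ?_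
      rw [map_sum]
      exact Finset.sum_congr rfl fun r _ => a9_prod z g r
    rw [e3]
    ring

end H16D
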