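import Mathlib
import Pool.Agent.Lib.CFT.D0
import Pool.Agent.Lib.H16D.A9

/-! # H16D, chunk B1: (S/M) the norm on the layers below the break -/

open NumberField IsDedekindDomain

namespace H16D

open CFT

variable {K : Type} [Field K] [NumberField K] {L : Type} [Field L] [NumberField L] [Algebra K L]

/-- PROOF. V = w.valuation L; fo1 (A9) (hz: exp(-n) <= 1): y with V y <= exp(-n), N(1+z) - 1 - N z = Tr y, whose valuation at v is <= exp(-((n + (p-1)(t+1)) / p)) by hT; and n + 1 <= (n + (p-1)(t+1)) / p because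
p (n + 1) <= n + (p-1)(t+1): with p = m + 1, m >= 1: (m+1)(n+1) = n + m n + m + 1 <= n + m (t + 1) as m (t + 1) >= m (n + 2) = m n + 2 m >= m n + m + 1 (hn: n + 1 <= t). -/
theorem la1 [IsGalois K L] {p : ℕ} (hp : p.Prime) (hd : Module.finrank K L = p) (w : Pr L) (v : Pr K)
    (hV : ∀ (s : L ≃ₐ[K] L) (x : L), w.valuation L (s x) = w.valuation L x) {t : ℕ}
    (hT : ∀ (y : L) (j : ℕ), w.valuation L y ≤ WithZero.exp (-(j : ℤ)) →
      v.valuation K (Algebra.trace K L y) ≤ WithZero.exp (-(((j + (p - 1) * (t + 1)) / p : ℕ) : ℤ)))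
    {n : ℕ} (hn : n + 1 ≤ t) (z : L) (hz : w.valuation L z ≤ WithZero.exp (-(n : ℤ))) :
    v.valuation K (Algebra.norm K (1 + z) - 1 - Algebra.norm K z) ≤ WithZero.exp (-((n + 1 : ℕ) : ℤ)) := by
  obtain ⟨y, hy, hN⟩ := fo1 hp hd (w.valuation L) hV z (hz.trans (CFT.exp_le_one n))
  have e1 : Algebra.norm K (1 + z) - 1 - Algebra.norm K z = Algebra.trace K L y := by
    rw [hN]
    ring
  rw [e1]
  refine (hT y n (hy.trans hz)).trans ?_
  rw [WithZero.exp_le_exp]
  have h2 : n + 1 ≤ (n + (p - 1) * (t + 1)) / p := by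
    rw [Nat.le_div_iff_mul_le hp.pos]
    obtain ⟨m, hm⟩ : ∃ m, p = m + 2 := ⟨p - 2, by have := hp.two_le; omega⟩
    rw [hm]
    have e2 : m + 2 - 1 = m + 1 := by omega
    rw [e2]
    nlinarith [Nat.zero_le (m * (t - (n + 1))), Nat.mul_le_mul_left m hn]
  omega

end H16D
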