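import Mathlib
import Pool.Agent.Lib.CFT.B01
import Pool.Agent.Lib.CFT.B03
import Pool.Agent.Lib.CFT.B14
import Pool.Agent.Lib.CFT.B17
import Pool.Agent.Lib.CFT.D0

/-! # H16D, chunk B2: (S/M) p-th roots in the residue field -/

open NumberField IsDedekindDomain

namespace H16D

open CFT

variable {K : Type} [Field K] [NumberField K]

/-- PROOF. Step 1: there is r in O_K with valuation of c - r < 1: approx (B14) is one way (x near c at v and x near 0 ... ), or frac_prime (B03, S = {v}; c = 0 clear; the hypothesis is 0 <= od v c): c = a/b with b not in v; the field O_K/v: b has an inverse b' mod v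
(Ideal.Quotient.field, v maximal: v.isMaximal; b b' - 1 in v), r = a b'. c - r = a (1 - b b') / b has valuation < 1 (valuation of elements of v is < 1: HeightOneSpectrum.valuation_lt_one_iff_mem or similar).
Step 2: the field k = O_K/v is finite (Ideal.finiteQuotientOfFreeOfNeBot) of characteristic p (p in v), so x ↦ x^p is injective on k (frobenius_inj, or (x-y)^p = x^p - y^p: sub_pow_char / CharP), so surjective (Finite.injective_iff_surjective):
a in O_K with a^p - r in v. The valuation of a^p - c is <= max of those of a^p - r and r - c: < 1. -/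
theorem rt1 {p : ℕ} (hp : p.Prime) (v : Pr K) (hpv : (p : 𝓞 K) ∈ v.asIdeal) (c : K) (hc : v.valuation K c ≤ 1) :
    ∃ a : K, v.valuation K a ≤ 1 ∧ v.valuation K (a ^ p - c) < 1 := by
  have hod : 0 ≤ od v c := by
    by_cases h0 : c = 0
    · rw [h0, od_zero]
    · rw [val_eq v h0, ← WithZero.exp_zero, WithZero.exp_le_exp] at hc
      omega
  obtain ⟨a0, b0, hb0, hcab, hbv⟩ := frac_prime ({v} : Finset (Pr K)) (x := c)
    (fun w hw => by rw [Finset.mem_singleton.1 hw]; exact hod)
  have hb : b0 ∉ v.asIdeal := hbv v (Finset.mem_singleton_self v)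
  obtain ⟨b', i, hi, hbi⟩ := v.isMaximal.exists_inv hb
  haveI : Finite (𝓞 K ⧸ v.asIdeal) := Ideal.finiteQuotientOfFreeOfNeBot _ v.ne_bot
  haveI : IsDomain (𝓞 K ⧸ v.asIdeal) := Ideal.Quotient.isDomain _
  haveI : Fact p.Prime := ⟨hp⟩
  haveI : CharP (𝓞 K ⧸ v.asIdeal) p := by
    rw [CharP.charP_iff_prime_eq_zero hp]
    have h1 : Ideal.Quotient.mk v.asIdeal (p : 𝓞 K) = 0 := Ideal.Quotient.eq_zero_iff_mem.2 hpv
    rw [← h1]
    simp
  have hsurj : Function.Surjective (frobenius (𝓞 K ⧸ v.asIdeal) p) :=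
    Finite.injective_iff_surjective.1 (frobenius_inj _ p)
  obtain ⟨s, hs⟩ := hsurj (Ideal.Quotient.mk v.asIdeal (a0 * b'))
  obtain ⟨a, ha⟩ := Ideal.Quotient.mk_surjective s
  rw [frobenius_def, ← ha, ← map_pow, Ideal.Quotient.eq] at hs
  have hmem : a ^ p * b0 - a0 ∈ v.asIdeal := by
    have h1 : a ^ p * b0 - a0 = (a ^ p - a0 * b') * b0 + (-a0) * i := by
      linear_combination a0 * hbi
    rw [h1]
    exact v.asIdeal.add_mem (v.asIdeal.mul_mem_right _ hs) (v.asIdeal.mul_mem_left _ hi)
  refine ⟨(a : K), v.valuation_le_one a, ?_⟩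
  have hbK : (b0 : K) ≠ 0 := fun h => hb0 (RingOfIntegers.coe_eq_zero_iff.1 h)
  have hval : v.valuation K (b0 : K) = 1 := by
    refine le_antisymm (v.valuation_le_one b0) ?_
    by_contra hlt
    exact hb ((v.valuation_lt_one_iff_mem b0).1 (not_le.1 hlt))
  have he : (a : K) ^ p - c = ((a ^ p * b0 - a0 : 𝓞 K) : K) / (b0 : K) := by
    rw [hcab]
    push_cast
    field_simp
  rw [he, map_div₀, hval, div_one]
  exact (v.valuation_lt_one_iff_mem _).2 hmem

end H16D
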