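import Mathlib
import Pool.Agent.Lib.CFT.B01
import Pool.Agent.Lib.CFT.B15
import Pool.Agent.Lib.H16D.A2
import Pool.Agent.Lib.H16D.B1
import Pool.Agent.Lib.H16D.B2

/-! # H16D, chunk B3: (M) units at v are norms modulo v^t -/

open NumberField IsDedekindDomain

namespace H16D

open CFT

variable {K : Type} [Field K] [NumberField K] {L : Type} [Field L] [NumberField L] [Algebra K L]

theorem b3_lt (v : Pr K) (n : ℕ) {y : K} (h : v.valuation K y < WithZero.exp (-(n : ℤ))) :
    v.valuation K y ≤ WithZero.exp (-((n + 1 : ℕ) : ℤ)) := by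
  by_cases hy : y = 0
  · rw [hy, map_zero]
    exact zero_le
  · rw [val_lt_iff v hy] at h
    rw [val_eq v hy, WithZero.exp_le_exp]
    push_cast
    omega

theorem b3_exp_lt (n : ℕ) : (WithZero.exp (-((n + 1 : ℕ) : ℤ)) : WithZero (Multiplicative ℤ)) < 1 := by
  rw [← WithZero.exp_zero, WithZero.exp_lt_exp]
  push_cast
  omega

/-- PROOF. v = below K w; V = w.valuation L is invariant (ra2, A2, by hw), the valuation of N z at v is V z (ra3). Induction on n, 1 <= n <= t: there is β with V β = 1 (so β ≠ 0) and valuation of x / N β - 1 <= exp(-n).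
n = 1: rt1 (B2) with c = x: a in K with valuation of a^p - x < 1; so the valuation of a^p is that of x, 1, β = algebraMap a: N β = a^p (Algebra.norm_algebraMap, hd), V β = 1, x / a^p - 1 = (x - a^p) / a^p has valuation < 1, that is <= exp(-1)
(WithZero: < exp 0 implies <= exp(-1); val_lt_iff, B01 or WithZero.lt_exp... lemmas).
n -> n + 1 (n + 1 <= t): let x' = x / N β, c = x' - 1. Π in L with od w Π = 1 (b15_ex, B15), π = N Π has valuation exp(-1) at v (ra3), Π, π ≠ 0. rt1 with c / π^n (valuation <= 1): a in K, valuation <= 1 and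
valuation of a^p - c / π^n < 1. z = algebraMap a * Π^n: V z <= exp(-n) (ra4 or V (algebraMap a) <= 1), N z = a^p π^n, valuation of N z - c <= exp(-(n+1)). la1 (B1): N(1 + z) = 1 + N z + r with r of valuation <= exp(-(n+1)).
So N(1 + z) - x' = (N z - c) + r has valuation <= exp(-(n+1)); N(1+z) has valuation 1 (n >= 1: N z, r, have valuation < 1), V (1 + z) = 1, β' = β (1 + z): x / N β' - 1 = (x' - N(1+z)) / N(1+z). -/
theorem in1 [IsGalois K L] {p : ℕ} (hp : p.Prime) (hd : Module.finrank K L = p) (w : Pr L)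
    (hw : ∀ w' : Pr L, below K w' = below K w → w' = w) (hf : w.asIdeal.inertiaDeg (𝓞 K) = 1)
    (hpv : (p : 𝓞 K) ∈ (below K w).asIdeal) {t : ℕ} (ht : 1 ≤ t)
    (hT : ∀ (y : L) (j : ℕ), w.valuation L y ≤ WithZero.exp (-(j : ℤ)) →
      (below K w).valuation K (Algebra.trace K L y) ≤ WithZero.exp (-(((j + (p - 1) * (t + 1)) / p : ℕ) : ℤ)))
    (x : K) (hx : (below K w).valuation K x = 1) :
    ∃ β : L, w.valuation L β = 1 ∧ (below K w).valuation K (x / Algebra.norm K β - 1) ≤ WithZero.exp (-(t : ℤ)) := by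
  have hV : ∀ (s : L ≃ₐ[K] L) (y : L), w.valuation L (s y) = w.valuation L y := fun s y => ra2 w hw s y
  have hN : ∀ z : L, (below K w).valuation K (Algebra.norm K z) = w.valuation L z := fun z => ra3 w hw hf z
  have hal : ∀ a : K, w.valuation L (algebraMap K L a) = (below K w).valuation K a ^ p := by
    intro a
    rw [← hN, Algebra.norm_algebraMap, hd, map_pow]
  have main : ∀ n : ℕ, n + 1 ≤ t → ∃ β : L, w.valuation L β = 1 ∧
      (below K w).valuation K (x / Algebra.norm K β - 1) ≤ WithZero.exp (-((n + 1 : ℕ) : ℤ)) := by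
    intro n
    induction n with
    | zero =>
      intro _
      obtain ⟨a, ha1, ha2⟩ := rt1 hp (below K w) hpv x (le_of_eq hx)
      have h1 : (below K w).valuation K (a ^ p) = 1 := by
        rw [← hx]
        exact Valuation.map_eq_of_sub_lt _ (by rw [hx]; exact ha2)
      have h2 : w.valuation L (algebraMap K L a) = 1 := by
        rw [hal, ← map_pow, h1]
      refine ⟨algebraMap K L a, h2, ?_⟩
      have h3 : a ^ p ≠ 0 := by
        intro h
        rw [h, map_zero] at h1
        exact zero_ne_one h1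
      apply b3_lt (below K w) 0
      rw [Algebra.norm_algebraMap, hd]
      have h4 : x / a ^ p - 1 = -((a ^ p - x) / a ^ p) := by
        field_simp
        ring
      rw [h4, Valuation.map_neg, map_div₀, h1, div_one, Nat.cast_zero, neg_zero, WithZero.exp_zero]
      exact ha2
    | succ n ih =>
      intro hn
      obtain ⟨β, hβ1, hβ2⟩ := ih (by omega)
      obtain ⟨ϖ, hϖ0, hϖ⟩ := b15_ex w 1
      have hβN : (below K w).valuation K (Algebra.norm K β) = 1 := by rw [hN, hβ1]
      have hβ0 : Algebra.norm K β ≠ 0 := by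
        intro h
        rw [h, map_zero] at hβN
        exact zero_ne_one hβN
      have hϖV : w.valuation L ϖ = WithZero.exp (-1 : ℤ) := by
        rw [val_eq w hϖ0, hϖ]
      have hπV : (below K w).valuation K (Algebra.norm K ϖ) = WithZero.exp (-1 : ℤ) := by rw [hN, hϖV]
      have hπ0 : Algebra.norm K ϖ ≠ 0 := by
        intro h
        rw [h, map_zero] at hπV
        exact WithZero.exp_ne_zero hπV.symm
      have hpow : (WithZero.exp (-1 : ℤ) : WithZero (Multiplicative ℤ)) ^ (n + 1) = WithZero.exp (-((n + 1 : ℕ) : ℤ)) := by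
        rw [← WithZero.exp_nsmul]
        congr 1
        simp
      have hπn : (below K w).valuation K (Algebra.norm K ϖ ^ (n + 1)) = WithZero.exp (-((n + 1 : ℕ) : ℤ)) := by
        rw [map_pow, hπV, hpow]
      have hπn0 : Algebra.norm K ϖ ^ (n + 1) ≠ 0 := pow_ne_zero _ hπ0
      obtain ⟨c, hc⟩ : ∃ c : K, c = x / Algebra.norm K β - 1 := ⟨_, rfl⟩
      rw [← hc] at hβ2
      have hc1 : (below K w).valuation K (c / Algebra.norm K ϖ ^ (n + 1)) ≤ 1 := by
        rw [map_div₀, hπn]
        exact div_le_one_of_le₀ hβ2 zero_le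
      obtain ⟨a, ha1, ha2⟩ := rt1 hp (below K w) hpv _ hc1
      have hz1 : w.valuation L (algebraMap K L a * ϖ ^ (n + 1)) ≤ WithZero.exp (-((n + 1 : ℕ) : ℤ)) := by
        rw [map_mul, map_pow, hϖV, hpow, hal]
        exact mul_le_of_le_one_left' (pow_le_one' ha1 p)
      have hz2 : Algebra.norm K (algebraMap K L a * ϖ ^ (n + 1)) = a ^ p * Algebra.norm K ϖ ^ (n + 1) := by
        rw [map_mul, Algebra.norm_algebraMap, hd, map_pow]
      have hz3 : (below K w).valuation K (Algebra.norm K (algebraMap K L a * ϖ ^ (n + 1)) - c) ≤ WithZero.exp (-((n + 1 + 1 : ℕ) : ℤ)) := by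
        apply b3_lt (below K w) (n + 1)
        have h5 : Algebra.norm K (algebraMap K L a * ϖ ^ (n + 1)) - c = (a ^ p - c / Algebra.norm K ϖ ^ (n + 1)) * Algebra.norm K ϖ ^ (n + 1) := by
          rw [hz2, sub_mul, div_mul_cancel₀ _ hπn0]
        rw [h5, map_mul, hπn]
        exact mul_lt_of_lt_one_left (lt_of_le_of_ne zero_le (Ne.symm WithZero.exp_ne_zero)) ha2
      have hla := la1 hp hd w (below K w) hV hT hn (algebraMap K L a * ϖ ^ (n + 1)) hz1
      obtain ⟨z, hz⟩ : ∃ z : L, z = algebraMap K L a * ϖ ^ (n + 1) := ⟨_, rfl⟩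
      rw [← hz] at hz1 hz3 hla
      have hx' : x / Algebra.norm K β = 1 + c := by rw [hc]; ring
      have hk : (below K w).valuation K (Algebra.norm K (1 + z) - (1 + c)) ≤ WithZero.exp (-((n + 1 + 1 : ℕ) : ℤ)) := by
        have h5 : Algebra.norm K (1 + z) - (1 + c) = (Algebra.norm K (1 + z) - 1 - Algebra.norm K z) + (Algebra.norm K z - c) := by ring
        rw [h5]
        exact Valuation.map_add_le _ hla hz3
      have hxV : (below K w).valuation K (1 + c) = 1 := by
        rw [← hx', map_div₀, hx, hβN, div_one]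
      have hNz : (below K w).valuation K (Algebra.norm K (1 + z)) = 1 := by
        rw [← hxV]
        exact Valuation.map_eq_of_sub_lt _ (by rw [hxV]; exact lt_of_le_of_lt hk (b3_exp_lt (n + 1)))
      have hNz0 : Algebra.norm K (1 + z) ≠ 0 := by
        intro h
        rw [h, map_zero] at hNz
        exact zero_ne_one hNz
      refine ⟨β * (1 + z), ?_, ?_⟩
      · rw [map_mul, hβ1, one_mul, ← hN, hNz]
      · have h6 : x / Algebra.norm K (β * (1 + z)) - 1 = -((Algebra.norm K (1 + z) - (1 + c)) / Algebra.norm K (1 + z)) := by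
          rw [map_mul, ← div_div, hx']
          field_simp
          ring
        rw [h6, Valuation.map_neg, map_div₀, hNz, div_one]
        exact hk
  obtain ⟨m, rfl⟩ : ∃ m : ℕ, t = m + 1 := ⟨t - 1, by omega⟩
  exact main m le_rfl

end H16D
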