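import Mathlib
import Pool.Agent.Lib.CFT.B11
import Pool.Agent.Lib.CFT.B13
import Pool.Agent.Lib.CFT.B18
import Pool.Agent.Lib.H16D.A1
import Pool.Agent.Lib.H16D.A8
import Pool.Agent.Lib.H16D.B3

/-! # H16D, chunk B4: (M) the exponent of the conductor is at least t + 1 -/

open NumberField IsDedekindDomain

namespace H16D

open CFT

variable {K : Type} [Field K] [NumberField K] {L : Type} [Field L] [NumberField L] [Algebra K L]

/-- THE HALF >= OF THE CONDUCTOR-DISCRIMINANT FORMULA at a ramified prime v = below K w (d = (p-1)(t+1) the exponent of the different at w, hT the estimate of the trace): the character x ↦ art S χ (dv x) is nontrivial on the elements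
which are = 1 mod v^t and in the ray S₁, N, for every N.
PROOF. cd1 (A8) gives x₁ with Ray S₁ N x₁, od v x₁ = 0, art S χ (dv x₁) ≠ 0 (v is ramified: the ramification index at w is p ≠ 1). If t = 0, x₁ is the element (valuation of x₁ - 1 is <= 1 as that of x₁ is 1: val_eq). Let t >= 1. β from in1 (B3) for x₁: V β = 1, x₁ / N β - 1 has valuation
<= exp(-t). N' from ray_norm (B13) for (S₁, N), M from norm_cong (B11) for S = {v} and the number t: if all w' above v have valuation of y - 1 at w' < exp(-M) (only w, by hw) then the valuation of N y - 1 at v is < exp(-t). β' from ap2 (A1) in E = L, u = w, T = up L S₁ (w not in it: below K w = v is not in S₁),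
N', M, b = β: Ray (up L S₁) N' β', and β'/β - 1 has valuation < exp(-M) at w, so N(β'/β) - 1 has valuation < exp(-t) at v. x = x₁ / N β': Ray S₁ N x (Ray.mul, Ray.inv, ray_norm). x = (x₁ / N β) * (N(β'/β))⁻¹, both factors are = 1 mod v^t (the second: 1/(1+δ) - 1 = -δ/(1+δ)),
so x = 1 mod v^t; od v x = 0 (od v x₁ = 0; od v (N β') = 0 because β', β have the same valuation 1 at w, ra3). art S χ (dv x) = art S χ (dv x₁) - art S χ (Nd K L (dv β')) = art S χ (dv x₁) ≠ 0 (Nd_dv, B07; art_Nd, B18). -/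
theorem cd2 [IsGalois K L] (hab : ∀ a b : L ≃ₐ[K] L, a * b = b * a) {p : ℕ} (hp : p.Prime) (hd : Module.finrank K L = p) (w : Pr L)
    (hw : ∀ w' : Pr L, below K w' = below K w → w' = w) (he : w.asIdeal.ramificationIdx (𝓞 K) = p) (hf : w.asIdeal.inertiaDeg (𝓞 K) = 1)
    {t : ℕ} (hpv : 1 ≤ t → (p : 𝓞 K) ∈ (below K w).asIdeal)
    (hT : ∀ (y : L) (j : ℕ), w.valuation L y ≤ WithZero.exp (-(j : ℤ)) →
      (below K w).valuation K (Algebra.trace K L y) ≤ WithZero.exp (-(((j + (p - 1) * (t + 1)) / p : ℕ) : ℤ)))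
    (S S₁ : Finset (Pr K)) (hv1 : below K w ∉ S₁) (hS : ∀ u, u ∈ S ↔ u = below K w ∨ u ∈ S₁) (hur : ∀ u : Pr K, ¬ Unr K L u → u ∈ S)
    {A : Type} [CommGroup A] (χ : (L ≃ₐ[K] L) →* A) (hχ : Function.Injective χ) (N : ℕ) :
    ∃ x : K, Ray S₁ N x ∧ od (below K w) x = 0 ∧ (below K w).valuation K (x - 1) ≤ WithZero.exp (-(t : ℤ)) ∧ art S χ (dv x) ≠ 0 := by
  classical
  have hunr : ¬ Unr K L (below K w) := by
    intro h
    have h1 := h w rfl
    rw [he] at h1
    exact hp.one_lt.ne' h1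
  obtain ⟨x₁, hx₁, ho₁, ha₁⟩ := cd1 hab hp hd S S₁ (below K w) hunr hv1 hS hur χ hχ N
  have hv₁ : (below K w).valuation K x₁ = 1 := by
    rw [val_eq _ hx₁.ne, ho₁, neg_zero, WithZero.exp_zero]
  by_cases ht : t = 0
  · subst ht
    refine ⟨x₁, hx₁, ho₁, ?_, ha₁⟩
    rw [Nat.cast_zero, neg_zero, WithZero.exp_zero]
    refine (Valuation.map_sub _ _ _).trans ?_
    rw [hv₁, map_one, max_self]
  have ht1 : 1 ≤ t := Nat.one_le_iff_ne_zero.2 ht
  obtain ⟨β, hβ, hβ1⟩ := in1 hp hd w hw hf (hpv ht1) ht1 hT x₁ hv₁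
  have hβ0 : β ≠ 0 := by
    rintro rfl
    rw [map_zero] at hβ
    exact zero_ne_one hβ
  have hoβ : od w β = 0 := by
    unfold od
    rw [hβ, WithZero.log_one, neg_zero]
  obtain ⟨N', hN'⟩ := ray_norm (K := K) (L := L) S₁ N
  obtain ⟨M, hM⟩ := norm_cong (K := K) (L := L) {below K w} t
  have hwT : w ∉ up L S₁ := by
    rw [mem_up]
    exact hv1
  obtain ⟨β', hβ', hβ'1⟩ := ap2 w (up L S₁) hwT N' M hβ0 hoβ
  have hβ'0 : β' ≠ 0 := hβ'.ne
  have hγ0 : β' / β ≠ 0 := div_ne_zero hβ'0 hβ0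
  have hγN : (below K w).valuation K (Algebra.norm K (β' / β) - 1) < WithZero.exp (-(t : ℤ)) := by
    refine hM _ hγ0 (fun w' hw' => ?_) (below K w) (Finset.mem_singleton_self _)
    rw [mem_up, Finset.mem_singleton] at hw'
    rw [hw w' hw']
    exact hβ'1
  have hwβ' : w.valuation L β' = 1 := by
    have e : β' = β * (1 + (β' / β - 1)) := by
      field_simp
      ring
    have h1 : w.valuation L (β' / β - 1) < 1 := hβ'1.trans_le (exp_le_one M)
    have h2 : w.valuation L (1 + (β' / β - 1)) = 1 := Valuation.map_one_add_of_lt _ h1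
    rw [e, map_mul, hβ, one_mul, h2]
  have hNβ' : (below K w).valuation K (Algebra.norm K β') = 1 := by rw [ra3 w hw hf, hwβ']
  have hNβ'0 : Algebra.norm K β' ≠ 0 := Algebra.norm_ne_zero_iff.2 hβ'0
  have hNβ0 : Algebra.norm K β ≠ 0 := Algebra.norm_ne_zero_iff.2 hβ0
  have hRN : Ray S₁ N (Algebra.norm K β') := hN' β' hβ'
  refine ⟨x₁ * (Algebra.norm K β')⁻¹, hx₁.mul hRN.inv, ?_, ?_, ?_⟩
  · rw [od_mul _ hx₁.ne (inv_ne_zero hNβ'0), ho₁, od_inv, zero_add, neg_eq_zero]
    unfold od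
    rw [hNβ', WithZero.log_one, neg_zero]
  · have hNγ : Algebra.norm K (β' / β) = Algebra.norm K β' / Algebra.norm K β := by
      rw [eq_div_iff hNβ0, ← map_mul, div_mul_cancel₀ _ hβ0]
    have hNγ1 : (below K w).valuation K (Algebra.norm K (β' / β)) = 1 := by
      have e : Algebra.norm K (β' / β) = 1 + (Algebra.norm K (β' / β) - 1) := by ring
      rw [e]
      exact Valuation.map_one_add_of_lt _ (hγN.trans_le (exp_le_one t))
    have hNγ0 : Algebra.norm K (β' / β) ≠ 0 := Algebra.norm_ne_zero_iff.2 hγ0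
    have e : x₁ * (Algebra.norm K β')⁻¹ - 1 =
        ((x₁ / Algebra.norm K β - 1) - (Algebra.norm K (β' / β) - 1)) * (Algebra.norm K (β' / β))⁻¹ := by
      rw [hNγ]
      field_simp
      ring
    rw [e, map_mul, map_inv₀, hNγ1, inv_one, mul_one]
    exact (Valuation.map_sub _ _ _).trans (max_le hβ1 hγN.le)
  · rw [dv_mul hx₁.ne (inv_ne_zero hNβ'0), dv_inv, map_add, map_neg, ← Nd_dv hβ'0, art_Nd hab S hur, neg_zero, add_zero]
    exact ha₁

end H16D
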