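import Mathlib
import Pool.Agent.Lib.CFT.B01
import Pool.Agent.Lib.CFT.B03
import Pool.Agent.Lib.CFT.B06
import Pool.Agent.Lib.CFT.D0
import Pool.Agent.Lib.H16D.A2

/-! # H16D, chunk B5: (S/M) the trace estimate in terms of valuations -/

open NumberField IsDedekindDomain

namespace H16D

open CFT

variable {K : Type} [Field K] [NumberField K] {L : Type} [Field L] [NumberField L] [Algebra K L]

/-- PROOF. y = 0: clear. frac_prime (B03) in L, S = {w}, (0 <= od w y from hy, val_lt_iff / val_eq): y = a / b, b in O_L not in w. Let β = Algebra.intNorm (O_K) (O_L) b: b divides algebraMap β (Algebra.dvd_algebraMap_intNorm_self, or: the norm is the product of the conjugates), algebraMap β = b b',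
and the valuation of β at v = below K w is that of b at w (ra3, A2; Algebra.algebraMap_intNorm), that is 1 (b not in w). z = a b' in O_L: z = β y in L, the valuation of z at w is that of y, <= exp(-j), so z is in w^j (od_le_iff, B01, or HeightOneSpectrum.valuation_le_pow_iff / intValuation_le_pow_iff_mem; z = 0 clear).
h: intTrace z in v^(F j), so the valuation of Tr z (Algebra.algebraMap_intTrace) at v is <= exp(-F j); Tr z = β Tr y (linearity), and β has valuation 1. -/
theorem tr1 [IsGalois K L] (w : Pr L) (hw : ∀ w' : Pr L, below K w' = below K w → w' = w) (hf : w.asIdeal.inertiaDeg (𝓞 K) = 1) (F : ℕ → ℕ)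
    (h : ∀ (n : ℕ) (z : 𝓞 L), z ∈ w.asIdeal ^ n → Algebra.intTrace (𝓞 K) (𝓞 L) z ∈ (below K w).asIdeal ^ F n) (y : L) (j : ℕ)
    (hy : w.valuation L y ≤ WithZero.exp (-(j : ℤ))) :
    (below K w).valuation K (Algebra.trace K L y) ≤ WithZero.exp (-(F j : ℤ)) := by
  by_cases hy0 : y = 0
  · rw [hy0, map_zero, map_zero]
    exact zero_le
  have hod : (j : ℤ) ≤ od w y := by
    rw [val_eq w hy0, WithZero.exp_le_exp] at hy
    omega
  obtain ⟨a, b, hb0, hyab, hb⟩ := frac_prime (K := L) ({w} : Finset (Pr L)) (x := y) (by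
    intro v hv
    rw [Finset.mem_singleton] at hv
    rw [hv]
    omega)
  have hbw := hb w (Finset.mem_singleton_self w)
  obtain ⟨b', hb'⟩ := Algebra.dvd_algebraMap_intNorm_self (𝓞 K) (𝓞 L) b
  have hbL : (b : L) ≠ 0 := fun h => hb0 (RingOfIntegers.coe_eq_zero_iff.1 h)
  have hβ1 : algebraMap (𝓞 K) K (Algebra.intNorm (𝓞 K) (𝓞 L) b) = Algebra.norm K (b : L) :=
    Algebra.algebraMap_intNorm b
  generalize Algebra.intNorm (𝓞 K) (𝓞 L) b = β at hb' hβ1
  have hvb : w.valuation L (b : L) = 1 := by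
    refine le_antisymm (w.valuation_le_one b) (not_lt.1 fun hlt => hbw ?_)
    have h1 : w.valuation L (algebraMap (𝓞 L) L b) < 1 := hlt
    rw [HeightOneSpectrum.valuation_lt_one_iff_dvd] at h1
    exact Ideal.dvd_span_singleton.1 h1
  have hvβ : (below K w).valuation K (algebraMap (𝓞 K) K β) = 1 := by
    rw [hβ1, ra3 w hw hf, hvb]
  have hβv : β ∉ (below K w).asIdeal := by
    intro h1
    have h2 : (below K w).valuation K (algebraMap (𝓞 K) K β) < 1 := by
      rw [HeightOneSpectrum.valuation_lt_one_iff_dvd]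
      exact Ideal.dvd_span_singleton.2 h1
    rw [hvβ] at h2
    exact lt_irrefl _ h2
  have hwβ : w.valuation L (algebraMap (𝓞 L) L (algebraMap (𝓞 K) (𝓞 L) β)) = 1 := by
    refine le_antisymm (w.valuation_le_one _) (not_lt.1 fun hlt => hβv ?_)
    rw [HeightOneSpectrum.valuation_lt_one_iff_dvd] at hlt
    have h9 : algebraMap (𝓞 K) (𝓞 L) β ∈ w.asIdeal := Ideal.dvd_span_singleton.1 hlt
    exact h9
  have hcomm : algebraMap (𝓞 L) L (algebraMap (𝓞 K) (𝓞 L) β) = algebraMap K L (algebraMap (𝓞 K) K β) := by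
    rw [← IsScalarTower.algebraMap_apply (𝓞 K) (𝓞 L) L, ← IsScalarTower.algebraMap_apply (𝓞 K) K L]
  have hz : algebraMap (𝓞 L) L (a * b') = algebraMap K L (algebraMap (𝓞 K) K β) * y := by
    rw [← hcomm, hb', map_mul, map_mul, hyab]
    have hbL' : algebraMap (𝓞 L) L b ≠ 0 := hbL
    show algebraMap (𝓞 L) L a * algebraMap (𝓞 L) L b' =
      algebraMap (𝓞 L) L b * algebraMap (𝓞 L) L b' * (algebraMap (𝓞 L) L a / algebraMap (𝓞 L) L b)
    field_simp
  have hzw : a * b' ∈ w.asIdeal ^ j := by
    rw [← w.intValuation_le_pow_iff_mem (a * b') j, ← w.valuation_of_algebraMap (K := L) (a * b')]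
    have h9 : w.valuation L (algebraMap (𝓞 L) L (a * b')) ≤ WithZero.exp (-(j : ℤ)) := by
      rw [hz, map_mul, ← hcomm, hwβ, one_mul]
      exact hy
    exact h9
  have h1 := h j (a * b') hzw
  have h2 := ((below K w).intValuation_le_pow_iff_mem _ (F j)).2 h1
  rw [← (below K w).valuation_of_algebraMap (K := K)] at h2
  have h8 : (below K w).valuation K (algebraMap (𝓞 K) K (Algebra.intTrace (𝓞 K) (𝓞 L) (a * b'))) ≤
    WithZero.exp (-(F j : ℤ)) := h2
  rw [Algebra.algebraMap_intTrace (K := K) (L := L), hz] at h8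
  have h3 : Algebra.trace K L (algebraMap K L (algebraMap (𝓞 K) K β) * y) = algebraMap (𝓞 K) K β * Algebra.trace K L y := by
    rw [← Algebra.smul_def, map_smul, smul_eq_mul]
  rw [h3, map_mul, hvβ, one_mul] at h8
  exact h8

end H16D
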