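import Mathlib
import Pool.Agent.Lib.SSR.N2
import Pool.Agent.Lib.H16D.A2
import Pool.Agent.Lib.H16D.A8
import Pool.Agent.Lib.H16D.B4
import Pool.Agent.Lib.H16D.B5

/-! # H16D, C1: the half >= of the conductor-discriminant formula, wild and tame primes together -/

open NumberField IsDedekindDomain

namespace H16D

open CFT

variable {N : Type} [Field N] [NumberField N] {L : Type} [Field L] [NumberField L] [Algebra N L]

/-- The character x ↦ art S χ (dv x) is nontrivial on the elements = 1 mod v^t of the ray modulo S₁ (S = S₁ and v): t = 0 for a tame prime v; for v above p the exponent of the different is (p - 1)(t + 1). -/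
theorem cd3 [IsGalois N L] {p : ℕ} (hp : p.Prime) (hn : Module.finrank N L = p) (S S₁ : Finset (Pr N)) (v : Pr N) (hv : ¬ Unr N L v)
    (hv1 : v ∉ S₁) (hS : ∀ u, u ∈ S ↔ u = v ∨ u ∈ S₁) (hur : ∀ u : Pr N, ¬ Unr N L u → u ∈ S) (t : ℕ)
    (hT : t = 0 ∨ ∃ w : Pr L, SSR.TRam p v w t) {A : Type} [CommGroup A] (χ : (L ≃ₐ[N] L) →* A) (hχ : Function.Injective χ) (M : ℕ) :
    ∃ x : N, Ray S₁ M x ∧ od v x = 0 ∧ v.valuation N (x - 1) ≤ WithZero.exp (-(t : ℤ)) ∧ art S χ (dv x) ≠ 0 := by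
  have hcyc : IsCyclic (L ≃ₐ[N] L) := by
    have : Fact p.Prime := ⟨hp⟩
    exact isCyclic_of_prime_card (p := p) (by rw [IsGalois.card_aut_eq_finrank, hn])
  have hab : ∀ a b : L ≃ₐ[N] L, a * b = b * a := by
    let _ : CommGroup (L ≃ₐ[N] L) := hcyc.commGroup
    exact mul_comm
  rcases hT with rfl | ⟨w, hw⟩
  · obtain ⟨x, h1, h2, h3⟩ := cd1 hab hp hn S S₁ v hv hv1 hS hur χ hχ M
    refine ⟨x, h1, h2, ?_, h3⟩
    rw [Nat.cast_zero, neg_zero, WithZero.exp_zero]
    have h4 : v.valuation N x = 1 := by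
      rw [val_eq v h1.ne, h2, neg_zero, WithZero.exp_zero]
    refine (Valuation.map_sub (v.valuation N) _ _).trans ?_
    rw [h4, map_one, max_self]
  · obtain ⟨w₀, h1, h2, h3, h4⟩ := ra1 hp hn hv
    have hwv : below N w = v := by
      apply HeightOneSpectrum.ext
      show w.asIdeal.under (𝓞 N) = v.asIdeal
      have h5 : v.asIdeal ≤ w.asIdeal.under (𝓞 N) := by
        refine Ideal.le_comap_of_map_le ?_
        rw [hw.map]
        exact Ideal.pow_le_self hp.ne_zero
      exact (v.isMaximal.eq_of_le (Ideal.IsPrime.ne_top (Ideal.IsPrime.under (𝓞 N) w.asIdeal)) h5).symm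
    have hww : w = w₀ := h2 w hwv
    subst hww
    subst hwv
    refine cd2 hab hp hn w h2 h3 h4 (fun _ => hw.mem) ?_ S S₁ hv1 hS hur χ hχ M
    intro y j hy
    refine tr1 w h2 h4 (fun j => (j + (p - 1) * (t + 1)) / p) (fun n z hz => ?_) y j hy
    exact SSR.n2_le hw (Nat.mul_div_le _ _) hz

end H16D
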