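import Mathlib
import Pool.Agent.Lib.CFT.B01
import Pool.Agent.Lib.CFT.B04
import Pool.Agent.Lib.CFT.D2

/-! # H16D, chunk C2A: (S/M) a character on ideals on principal ideals -/

open NumberField IsDedekindDomain

namespace H16D

open CFT

variable {N : Type} [Field N] [NumberField N] {L : Type} [Field L] [NumberField L] [Algebra N L]

theorem c2a_dv (v : Pr N) (y : 𝓞 N) : dv (y : N) v = od v (y : N) := dv_apply _ _

/-- PROOF. idl_dv (B04): idl (dv y) = span {y}, and idl D = D.prod (fun v n => v.asIdeal ^ n.toNat). So ρ (span {y}) = product over the support of dv y of ρ(v)^(od v y).toNat (map_finsuppProd / map_prod). For v in the support od v y ≠ 0, so od v y > 0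
(od_nonneg, B01), y is in v (od_pos_iff, B01), f is not contained in v (hc: otherwise v contains span {y} ⊔ f = 1), v is not in S, ρ v = θ (frob v). On the other side dv y = sum over the support of single v (od v y) (Finsupp.sum_single), art S θ (single v n) = n • ofMul (θ (frob v))
(art_single_of_notMem, D2), so art S θ (dv y) is ofMul of the product of the θ(frob v)^(od v y); zpow with a nonnegative exponent is pow with toNat. -/
theorem rh1 {f : Ideal (𝓞 N)} {ρ : Ideal (𝓞 N) →*₀ ℂ} (S : Finset (Pr N)) (hS : ∀ u : Pr N, f ≤ u.asIdeal ↔ u ∈ S) (θ : (L ≃ₐ[N] L) →* ℂˣ)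
    (hρ : ∀ u : Pr N, ¬ f ≤ u.asIdeal → ρ u.asIdeal = θ (frob N L u)) (y : 𝓞 N) (hy : y ≠ 0) (hc : IsCoprime (Ideal.span {y}) f) :
    ρ (Ideal.span {y}) = ((Additive.toMul (art S θ (dv (y : N))) : ℂˣ) : ℂ) := by
  rw [← idl_dv hy]
  have key : ∀ T : Finset (Pr N), (∀ v ∈ T, v ∈ (dv (y : N)).support) →
      ρ (∏ v ∈ T, v.asIdeal ^ (dv (y : N) v).toNat) =
        ((Additive.toMul (art S θ (∑ v ∈ T, Finsupp.single v (dv (y : N) v))) : ℂˣ) : ℂ) := by
    classical
    intro T
    induction T using Finset.induction_on with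
    | empty =>
      intro _
      rw [Finset.prod_empty, Finset.sum_empty, map_one, map_zero]
      rfl
    | insert a T ha ih =>
      intro hT
      have h1 := ih (fun v hv => hT v (Finset.mem_insert_of_mem hv))
      have h2 : a ∈ (dv (y : N)).support := hT a (Finset.mem_insert_self _ _)
      rw [Finset.prod_insert ha, Finset.sum_insert ha, map_mul, map_add, toMul_add, Units.val_mul, h1]
      congr 1
      have h3 : dv (y : N) a ≠ 0 := Finsupp.mem_support_iff.1 h2
      have h4 : dv (y : N) a = od a (y : N) := c2a_dv a y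
      have h5 : 0 ≤ od a (y : N) := od_nonneg a y
      have h6 : 0 < od a (y : N) := lt_of_le_of_ne h5 (by rw [← h4]; exact h3.symm)
      have h7 : y ∈ a.asIdeal := (od_pos_iff a hy).1 h6
      have h8 : ¬ f ≤ a.asIdeal := by
        intro h9
        have h10 : (1 : Ideal (𝓞 N)) ≤ a.asIdeal := by
          rw [Ideal.isCoprime_iff_sup_eq] at hc
          rw [Ideal.one_eq_top, ← hc]
          exact sup_le ((Ideal.span_singleton_le_iff_mem _).2 h7) h9
        rw [Ideal.one_eq_top, top_le_iff] at h10
        exact a.isPrime.ne_top h10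
      have h11 : a ∉ S := fun h => h8 ((hS a).2 h)
      rw [art_single_of_notMem θ h11, map_pow, hρ a h8, h4, toMul_zsmul, toMul_ofMul]
      obtain ⟨k, hk⟩ : ∃ k : ℕ, od a (y : N) = k := ⟨(od a (y : N)).toNat, by omega⟩
      rw [hk, Int.toNat_natCast, zpow_natCast, Units.val_pow_eq_pow_val]
  have h1 := key _ (fun v hv => hv)
  have h2 : (∑ v ∈ (dv (y : N)).support, Finsupp.single v (dv (y : N) v)) = dv (y : N) := Finsupp.sum_single _
  rw [h2] at h1
  exact h1

end H16D
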