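import Mathlib
import Pool.Agent.Lib.CFT.B01
import Pool.Agent.Lib.CFT.B03
import Pool.Agent.Lib.H16D.C1
import Pool.Agent.Lib.H16D.C2A

/-! # H16D, chunk C2: (M) the ray class character of a cyclic extension of prime degree is primitive -/

open NumberField IsDedekindDomain

namespace H16D

open CFT

variable {N : Type} [Field N] [NumberField N] {L : Type} [Field L] [NumberField L] [Algebra N L]

theorem c2_val {u : Pr N} {r : 𝓞 N} (n : ℕ) : r ∈ u.asIdeal ^ n ↔ u.valuation N (r : N) ≤ WithZero.exp (-(n : ℤ)) := by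
  rw [← HeightOneSpectrum.intValuation_le_pow_iff_mem]
  have h := u.valuation_of_algebraMap (K := N) r
  rw [← h]

/-- An element which is in u^(D u) for all u is in the ideal of D. -/
theorem c2_mem {D : Dv N} (hD : ∀ u, 0 ≤ D u) {r : 𝓞 N} (h : ∀ u : Pr N, r ∈ u.asIdeal ^ (D u).toNat) : r ∈ idl D := by
  by_cases hr : r = 0
  · rw [hr]
    exact (idl D).zero_mem
  have h1 : ∀ u : Pr N, D u ≤ od u (r : N) := by
    intro u
    have h2 := (od_le_iff u hr (D u).toNat).2 (h u)
    rwa [Int.toNat_of_nonneg (hD u)] at h2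
  have h2 : dv (r : N) = D + (dv (r : N) - D) := by abel
  have h3 : ∀ u, 0 ≤ (dv (r : N) - D) u := by
    intro u
    rw [Finsupp.sub_apply, dv_apply]
    have := h1 u
    omega
  have h4 : Ideal.span {r} = idl D * idl (dv (r : N) - D) := by
    rw [← idl_dv hr, ← idl_add hD h3, ← h2]
  have h5 : Ideal.span {r} ≤ idl D := by
    rw [h4]
    exact Ideal.mul_le_left (I := idl D) (J := idl (dv (r : N) - D))
  exact (Ideal.span_singleton_le_iff_mem _).1 h5

/-- z - 1 in u^n from x = 1 mod u^n. -/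
theorem c2_one {u : Pr N} {n : ℕ} {a b c : 𝓞 N} {x : N} (hb0 : (b : N) ≠ 0) (hx : x = (a : N) / (b : N)) (h1 : u.valuation N (x - 1) ≤ WithZero.exp (-(n : ℤ)))
    (h2 : b * c - 1 ∈ u.asIdeal ^ n) : a * c - 1 ∈ u.asIdeal ^ n := by
  have e : a * c - 1 = (a * c - b * c) + (b * c - 1) := by ring
  rw [e]
  refine Ideal.add_mem _ ?_ h2
  rw [c2_val]
  have e2 : ((a * c - b * c : 𝓞 N) : N) = ((b * c : 𝓞 N) : N) * (x - 1) := by
    rw [hx]
    push_cast
    field_simp
  rw [e2, map_mul]
  calc u.valuation N ((b * c : 𝓞 N) : N) * u.valuation N (x - 1) ≤ 1 * u.valuation N (x - 1) :=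
        mul_le_mul_left (u.valuation_le_one _) _
    _ ≤ _ := by
        rw [one_mul]
        exact h1

omit [NumberField N] in
theorem c2_cop {f : Ideal (𝓞 N)} {r : 𝓞 N} (h : ∀ u : Pr N, f ≤ u.asIdeal → r ∉ u.asIdeal) (hf : f ≠ ⊥) : IsCoprime (Ideal.span {r}) f := by
  rw [Ideal.isCoprime_iff_sup_eq]
  by_contra h1
  obtain ⟨m, hm, hle⟩ := Ideal.exists_le_maximal _ h1
  have hm0 : m ≠ ⊥ := fun h0 => hf (le_bot_iff.1 (h0 ▸ le_sup_right.trans hle))
  exact h ⟨m, hm.isPrime, hm0⟩ (le_sup_right.trans hle) (hle (Ideal.mem_sup_left (Ideal.mem_span_singleton_self r)))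

/-- PROOF. S = the finite set of the primes u with f <= u (Ideal.finite_factors, f ≠ 0), S₁ = S without v (classical, Finset.erase). M a number with u^M not dividing f for all u in S
(finitely many; exponents of f: e.g. M = the sum over S of the multiplicities + 1, multiplicity.pow_dvd_iff_le_multiplicity / FiniteMultiplicity, or emultiplicity).
cd3 (C1): x with Ray S₁ M x, od v x = 0, valuation of x - 1 at v <= exp(-t), art S θ (dv x) ≠ 0. od u x = 0 for all u in S (Ray.od_eq, D2), so by frac_prime (B03) x = a / b, b in no u of S; a also is in no u of S (the valuation of a is that of b: 1). Choose c in O_N with b c - 1 in f (span {b} and f are coprime: no prime contains both;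
Ideal.isCoprime_iff_exists, Ideal.mem_span_singleton'). z = a c (c ≠ 0, a ≠ 0 as x ≠ 0; if b c = 0 then 1 in f, impossible as f <= v). z - 1 = (a c - b c) + (b c - 1) and a c - b c = b c (x - 1), b c a unit at u in S. I: f = v I with I an ideal (Ideal.dvd_iff_le, hv; I * v = f). z - 1 is in I: check at every prime
(an element y ≠ 0 is in I if multiplicity of u in I is <= od u y for all u: le_idl_iff / idl_dv (B04) or Ideal dvd by factor counts; y = z - 1, if it is 0 it is clear): u ≠ v in S: the valuation of x - 1 is < exp(-M), so a c - b c is in u^M, b c - 1 in f; the exponent of u in f is < M. u = v: the exponent of v in I is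
(exponent in f) - 1 <= t (hft), a c - b c in v^t, b c - 1 in f. u not in S: exponent 0. (An alternative that avoids the count: write f = v^s f₀ with s <= t + 1, f₀ not in v (Ideal: exists by finite multiplicity), I = v^(s-1) f₀, and z - 1 in v^(s-1) and in f₀ (coprime ideals: intersection = product);
for f₀ use: an element of f₀ + ... ; the count is easier.)
z is coprime to f: no u of S contains a or c (b c = 1 mod u). ρ (span {b c}) = ρ (span {1}) = ρ 1 = 1 (hper with x = 1 ... : 1 - b c in f, span {1} coprime to f; span {1} = ⊤ = 1). rh1 (C2A): ρ (span {z}) = art S θ (dv z), 1 = ρ (span {b c}) = art S θ (dv (b c)); dv z = dv x + dv (b c) (dv_mul, z = x (b c)),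
so ρ (span {z}) = art S θ (dv x) ≠ 1 (Units.ext, ofMul / toMul injective). -/
theorem cd4 [IsGalois N L] {p : ℕ} (hp : p.Prime) (hn : Module.finrank N L = p) {f : Ideal (𝓞 N)} (hf0 : f ≠ ⊥) {ρ : Ideal (𝓞 N) →*₀ ℂ}
    (hram : ∀ u : Pr N, f ≤ u.asIdeal ↔ ¬ Unr N L u)
    (hper : ∀ x y : 𝓞 N, x ≠ 0 → y ≠ 0 → IsCoprime (Ideal.span {x}) f → x - y ∈ f → ρ (Ideal.span {x}) = ρ (Ideal.span {y}))
    (θ : (L ≃ₐ[N] L) →* ℂˣ) (hθ : Function.Injective θ) (hρ : ∀ u : Pr N, ¬ f ≤ u.asIdeal → ρ u.asIdeal = θ (frob N L u))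
    (v : Pr N) (hv : f ≤ v.asIdeal) (t : ℕ) (hT : t = 0 ∨ ∃ w : Pr L, SSR.TRam p v w t) (hft : ¬ v.asIdeal ^ (t + 2) ∣ f) :
    ∃ I : Ideal (𝓞 N), I * v.asIdeal = f ∧ ∃ z : 𝓞 N, z ≠ 0 ∧ z - 1 ∈ I ∧ IsCoprime (Ideal.span {z}) f ∧ ρ (Ideal.span {z}) ≠ 1 := by
  classical
  obtain ⟨D, hD, hDf⟩ := exists_idl hf0
  have hDv : ∀ (u : Pr N) (n : ℕ), u.asIdeal ^ n ∣ f ↔ (n : ℤ) ≤ D u := by
    intro u n
    rw [← hDf]
    exact le_idl_iff hD u n
  have hSf : ∀ u : Pr N, f ≤ u.asIdeal ↔ u ∈ D.support := by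
    intro u
    rw [← Ideal.dvd_iff_le, Finsupp.mem_support_iff]
    have h1 := hDv u 1
    rw [pow_one] at h1
    rw [h1]
    have := hD u
    constructor
    · intro h
      push_cast at h
      omega
    · intro h
      push_cast
      omega
  have hDv1 : 1 ≤ D v := by
    have h1 := hDv v 1
    rw [pow_one, Ideal.dvd_iff_le] at h1
    have := h1.1 hv
    push_cast at this
    exact this
  have hDvt : D v ≤ t + 1 := by
    rw [hDv] at hft
    push_cast at hft
    omega
  set S := D.support with hS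
  obtain ⟨M, hM⟩ : ∃ M : ℕ, ∀ u ∈ S, D u ≤ M := by
    refine ⟨S.sup fun u => (D u).toNat, fun u hu => ?_⟩
    have h1 : (D u).toNat ≤ S.sup fun u => (D u).toNat := Finset.le_sup (f := fun u => (D u).toNat) hu
    have h2 := Int.toNat_of_nonneg (hD u)
    omega
  have hvu : ¬ Unr N L v := (hram v).1 hv
  have hvS : v ∈ S := (hSf v).1 hv
  obtain ⟨x, hx1, hx2, hx3, hx4⟩ := cd3 hp hn S (S.erase v) v hvu (Finset.notMem_erase v S) (fun u => by
    rw [Finset.mem_erase]
    by_cases huv : u = v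
    · subst huv
      exact ⟨fun _ => Or.inl rfl, fun _ => hvS⟩
    · exact ⟨fun h => Or.inr ⟨huv, h⟩, fun h => h.elim (fun h => absurd h huv) fun h => h.2⟩)
    (fun u hu => (hSf u).1 ((hram u).2 hu)) t hT θ hθ M
  have hxS : ∀ u ∈ S, od u x = 0 := by
    intro u hu
    by_cases huv : u = v
    · rw [huv]
      exact hx2
    · exact hx1.od_eq (Finset.mem_erase.2 ⟨huv, hu⟩)
  obtain ⟨a, b, hb0, hxab, hbS⟩ := frac_prime S fun u hu => (hxS u hu).ge
  have hbK : (b : N) ≠ 0 := fun h => hb0 (RingOfIntegers.coe_eq_zero_iff.1 h)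
  have haK : (a : N) ≠ 0 := by
    intro h
    rw [h, zero_div] at hxab
    exact hx1.ne hxab
  have ha0 : a ≠ 0 := by
    rintro rfl
    exact haK (map_zero _)
  have haS : ∀ u ∈ S, a ∉ u.asIdeal := by
    intro u hu h
    have h1 := (od_pos_iff u ha0).2 h
    have h2 : (a : N) = x * (b : N) := by
      rw [hxab]
      field_simp
    rw [h2, od_mul u hx1.ne hbK, hxS u hu, zero_add, od_pos_iff u hb0] at h1
    exact hbS u hu h1
  obtain ⟨i, hi, j, hj, hij⟩ := Ideal.isCoprime_iff_exists.1 (c2_cop (f := f) (r := b) (fun u hu => hbS u ((hSf u).1 hu)) hf0)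
  obtain ⟨c, rfl⟩ := Ideal.mem_span_singleton'.1 hi
  have hbc : b * c - 1 ∈ f := by
    have e : b * c - 1 = -j := by
      rw [← hij]
      ring
    rw [e]
    exact f.neg_mem hj
  have hcS : ∀ u ∈ S, c ∉ u.asIdeal := by
    intro u hu h
    have h1 : b * c - 1 ∈ u.asIdeal := (hSf u).2 hu hbc
    have h2 : (1 : 𝓞 N) = b * c - (b * c - 1) := by ring
    apply u.isPrime.ne_top
    rw [Ideal.eq_top_iff_one, h2]
    exact Ideal.sub_mem _ (Ideal.mul_mem_left _ _ h) h1
  have hc0 : c ≠ 0 := by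
    rintro rfl
    exact hcS v hvS (Ideal.zero_mem _)
  have hcK : (c : N) ≠ 0 := fun h => hc0 (RingOfIntegers.coe_eq_zero_iff.1 h)
  set DI : Dv N := D - Finsupp.single v 1 with hDI
  have hDIv : DI v = D v - 1 := by
    rw [hDI, Finsupp.sub_apply, Finsupp.single_eq_same]
  have hDIu : ∀ u, u ≠ v → DI u = D u := by
    intro u hu
    rw [hDI, Finsupp.sub_apply, Finsupp.single_eq_of_ne hu, sub_zero]
  have hDI0 : ∀ u, 0 ≤ DI u := by
    intro u
    by_cases huv : u = v
    · rw [huv, hDIv]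
      omega
    · rw [hDIu u huv]
      exact hD u
  refine ⟨idl DI, ?_, a * c, mul_ne_zero ha0 hc0, ?_, ?_, ?_⟩
  · have h1 : idl (Finsupp.single v 1 : Dv N) = v.asIdeal := by
      rw [b04_idl_single]
      simp
    rw [← hDf]
    conv_lhs => rw [← h1]
    rw [← idl_add hDI0 (b04_single v (by norm_num)), hDI, sub_add_cancel]
  · refine c2_mem hDI0 fun u => ?_
    by_cases huv : u = v
    · rw [huv, hDIv]
      refine c2_one hbK hxab (hx3.trans ?_) ?_
      · rw [WithZero.exp_le_exp]
        omega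
      · refine (Ideal.dvd_iff_le.1 ((hDv v _).2 ?_)) hbc
        omega
    · rw [hDIu u huv]
      by_cases huS : u ∈ S
      · refine c2_one hbK hxab ((hx1.cong u (Finset.mem_erase.2 ⟨huv, huS⟩)).le.trans ?_) ?_
        · rw [WithZero.exp_le_exp]
          have := hM u huS
          have := hD u
          omega
        · refine (Ideal.dvd_iff_le.1 ((hDv u _).2 ?_)) hbc
          have := hD u
          omega
      · rw [Finsupp.notMem_support_iff.1 huS, Int.toNat_zero, pow_zero, Ideal.one_eq_top]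
        exact Submodule.mem_top
  · refine c2_cop (fun u hu h => ?_) hf0
    rcases u.isPrime.mem_or_mem h with h | h
    · exact haS u ((hSf u).1 hu) h
    · exact hcS u ((hSf u).1 hu) h
  · have hcopbc : IsCoprime (Ideal.span {b * c}) f := by
      refine c2_cop (fun u hu h => ?_) hf0
      rcases u.isPrime.mem_or_mem h with h | h
      · exact hbS u ((hSf u).1 hu) h
      · exact hcS u ((hSf u).1 hu) h
    have hcopac : IsCoprime (Ideal.span {a * c}) f := by
      refine c2_cop (fun u hu h => ?_) hf0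
      rcases u.isPrime.mem_or_mem h with h | h
      · exact haS u ((hSf u).1 hu) h
      · exact hcS u ((hSf u).1 hu) h
    have h1 : ρ (Ideal.span {b * c}) = 1 := by
      rw [hper (b * c) 1 (mul_ne_zero hb0 hc0) one_ne_zero hcopbc hbc, Ideal.span_singleton_one, ← Ideal.one_eq_top, map_one]
    rw [rh1 S hSf θ hρ (b * c) (mul_ne_zero hb0 hc0) hcopbc] at h1
    rw [rh1 S hSf θ hρ (a * c) (mul_ne_zero ha0 hc0) hcopac]
    have h2 : ((a * c : 𝓞 N) : N) = x * ((b * c : 𝓞 N) : N) := by
      rw [hxab]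
      push_cast
      field_simp
    have hbcK : ((b * c : 𝓞 N) : N) ≠ 0 := by
      push_cast
      exact mul_ne_zero hbK hcK
    have h3 : art S θ (dv ((b * c : 𝓞 N) : N)) = 0 := by
      have h4 : Additive.toMul (art S θ (dv ((b * c : 𝓞 N) : N))) = 1 := Units.ext h1
      exact h4
    rw [h2, dv_mul hx1.ne hbcK, map_add, h3, add_zero]
    intro h5
    apply hx4
    have h6 : Additive.toMul (art S θ (dv x)) = 1 := Units.ext h5
    exact h6

end H16D
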